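import Mathlib
import Pool.Agent.Helper981.KP.Ent

/-!
Entropies of integer linear forms on a finite probability space; submodularity in the form
needed for a certificate of Shannon-type inequalities.
-/

set_option autoImplicit false
open Finset

namespace Pool.Agent.H149R2.SD
open Pool.Agent.Helper981.KP

section General
variable {Ω : Type*} [Fintype Ω]
variable {α β γ δ : Type*} [DecidableEq α] [DecidableEq β] [DecidableEq γ] [DecidableEq δ]

lemma mg_anti (w : Ω → ℝ) (hw : ∀ ω, 0 ≤ w ω) (f : Ω → α) (g : Ω → β)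
    (h : ∀ ω ω', f ω = f ω' → g ω = g ω') (ω : Ω) : mg w f ω ≤ mg w g ω := by
  unfold mg
  refine Finset.sum_le_sum fun ω' _ => ?_
  by_cases h1 : f ω' = f ω
  · rw [if_pos h1, if_pos (h _ _ h1)]
  · rw [if_neg h1]; split_ifs <;> simp [hw]

lemma Hf_mono (w : Ω → ℝ) (hw : ∀ ω, 0 ≤ w ω) (f : Ω → α) (g : Ω → β)
    (h : ∀ ω ω', f ω = f ω' → g ω = g ω') : Hf w g ≤ Hf w f := by
  unfold Hf
  refine Finset.sum_le_sum fun ω _ => ?_
  rcases (hw ω).eq_or_lt with h0 | hpos
  · rw [← h0]; simp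
  · refine mul_le_mul_of_nonneg_left ?_ hpos.le
    have p1 : 0 < mg w f ω := lt_of_lt_of_le hpos (le_mg w hw f ω)
    have := Real.log_le_log p1 (mg_anti w hw f g h ω)
    linarith

/-- submodularity for functions related by determination -/
theorem sub4 (w : Ω → ℝ) (hw : ∀ ω, 0 ≤ w ω) (F : Ω → α) (P : Ω → β) (Q : Ω → γ) (T : Ω → δ)
    (h1 : ∀ ω ω', P ω = P ω' → F ω = F ω') (h2 : ∀ ω ω', Q ω = Q ω' → F ω = F ω')
    (h3 : ∀ ω ω', P ω = P ω' → Q ω = Q ω' → T ω = T ω') :
    Hf w T + Hf w F ≤ Hf w P + Hf w Q := by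
  have hs := submod w hw P Q F
  have e1 : Hf w (fun ω => (P ω, F ω)) = Hf w P :=
    Hf_congr w _ _ fun ω ω' => ⟨fun h => (Prod.mk.inj h).1, fun h => Prod.ext h (h1 _ _ h)⟩
  have e2 : Hf w (fun ω => (Q ω, F ω)) = Hf w Q :=
    Hf_congr w _ _ fun ω ω' => ⟨fun h => (Prod.mk.inj h).1, fun h => Prod.ext h (h2 _ _ h)⟩
  have e3 : Hf w T ≤ Hf w (fun ω => (P ω, Q ω, F ω)) :=
    Hf_mono w hw _ _ fun ω ω' h => by
      simp only [Prod.mk.injEq] at h
      exact h3 _ _ h.1 h.2.1
  linarith

/-- the entropy is at most the logarithm of the number of values -/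
theorem Hf_le_log_card (w : Ω → ℝ) (hw : ∀ ω, 0 ≤ w ω) (hw1 : ∑ ω, w ω = 1) (f : Ω → α)
    (R : Finset α) (hR : ∀ ω, f ω ∈ R) : Hf w f ≤ Real.log R.card := by
  have hne : Nonempty Ω := by
    by_contra hcon
    rw [not_nonempty_iff] at hcon
    simp at hw1
  obtain ⟨ω0⟩ := hne
  have hRpos : (0 : ℝ) < R.card := by
    exact_mod_cast Finset.card_pos.mpr ⟨_, hR ω0⟩
  have key : ∀ ω, w ω * (-Real.log (mg w f ω)) ≤
      (w ω / mg w f ω) / R.card - w ω + w ω * Real.log R.card := by
    intro ω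
    rcases (hw ω).eq_or_lt with h0 | hpos
    · rw [← h0]; simp
    · have p1 : 0 < mg w f ω := lt_of_lt_of_le hpos (le_mg w hw f ω)
      have hl := Real.log_le_sub_one_of_pos (show 0 < 1 / (mg w f ω * R.card) by positivity)
      rw [Real.log_div one_ne_zero (by positivity), Real.log_one,
        Real.log_mul p1.ne' hRpos.ne'] at hl
      have h2 := mul_le_mul_of_nonneg_left hl hpos.le
      have h3 : w ω * (1 / (mg w f ω * R.card) - 1) = (w ω / mg w f ω) / R.card - w ω := by
        field_simp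
      rw [h3] at h2
      nlinarith
  have hsum := Finset.sum_le_sum (s := Finset.univ) fun ω _ => key ω
  rw [Finset.sum_add_distrib, Finset.sum_sub_distrib, ← Finset.sum_div, ← Finset.sum_mul,
    hw1] at hsum
  have hcount : ∑ ω, w ω / mg w f ω ≤ R.card := by
    calc ∑ ω, w ω / mg w f ω = ∑ ω, ∑ c ∈ R, (if f ω = c then w ω / mg w f ω else 0) := by
          refine Finset.sum_congr rfl fun ω _ => ?_
          rw [Finset.sum_ite_eq, if_pos (hR ω)]
      _ = ∑ c ∈ R, ∑ ω, (if f ω = c then w ω / mg w f ω else 0) := Finset.sum_comm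
      _ ≤ ∑ _c ∈ R, (1 : ℝ) := Finset.sum_le_sum fun c _ => sum_div_mg_le_one w hw f c
      _ = R.card := by simp
  have h4 : (∑ ω, w ω / mg w f ω) / R.card ≤ 1 := (div_le_one hRpos).mpr hcount
  unfold Hf
  linarith

/-- invariance under measure preserving bijections -/
theorem Hf_comp_equiv (w : Ω → ℝ) (σ : Ω ≃ Ω) (hσ : ∀ ω, w (σ ω) = w ω) (f : Ω → α) :
    Hf w (fun ω => f (σ ω)) = Hf w f := by
  have h1 : ∀ ω, mg w (fun ω => f (σ ω)) ω = mg w f (σ ω) := by
    intro ω
    unfold mg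
    rw [← Equiv.sum_comp σ (fun ω' => if f ω' = f (σ ω) then w ω' else 0)]
    refine Finset.sum_congr rfl fun ω' _ => ?_
    simp only [hσ]
  unfold Hf
  rw [← Equiv.sum_comp σ (fun ω => w ω * (-Real.log (mg w f ω)))]
  refine Finset.sum_congr rfl fun ω _ => ?_
  rw [h1, hσ]

/-- push-forward -/
theorem Hf_push {Ω' : Type*} [Fintype Ω'] [DecidableEq Ω'] (w : Ω → ℝ) (w' : Ω' → ℝ)
    (π : Ω → Ω')
    (hπ : ∀ q, w' q = ∑ ω, if π ω = q then w ω else 0) (g : Ω' → α) :
    Hf w (fun ω => g (π ω)) = Hf w' g := by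
  have h1 : ∀ ω, mg w (fun ω => g (π ω)) ω = mg w' g (π ω) := by
    intro ω
    unfold mg
    simp only [hπ]
    calc ∑ ω', (if g (π ω') = g (π ω) then w ω' else 0)
        = ∑ ω', ∑ q, (if q = π ω' then (if g q = g (π ω) then w ω' else 0) else 0) := by
          refine Finset.sum_congr rfl fun ω' _ => ?_
          rw [Finset.sum_ite_eq' Finset.univ (π ω') (fun q => if g q = g (π ω) then w ω' else 0)]
          simp
      _ = ∑ q, ∑ ω', (if q = π ω' then (if g q = g (π ω) then w ω' else 0) else 0) :=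
          Finset.sum_comm
      _ = _ := by
          refine Finset.sum_congr rfl fun q _ => ?_
          by_cases h : g q = g (π ω)
          · simp only [h, if_true]
            refine Finset.sum_congr rfl fun ω' _ => ?_
            by_cases h2 : q = π ω'
            · rw [if_pos h2, if_pos h2.symm]
            · rw [if_neg h2, if_neg (fun h3 => h2 h3.symm)]
          · simp [h]
  unfold Hf
  simp only [h1]
  calc ∑ ω, w ω * -Real.log (mg w' g (π ω))
      = ∑ ω, ∑ q, (if q = π ω then w ω * -Real.log (mg w' g q) else 0) := by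
        refine Finset.sum_congr rfl fun ω _ => ?_
        rw [Finset.sum_ite_eq' Finset.univ (π ω) (fun q => w ω * -Real.log (mg w' g q))]
        simp
    _ = ∑ q, ∑ ω, (if q = π ω then w ω * -Real.log (mg w' g q) else 0) := Finset.sum_comm
    _ = _ := by
        refine Finset.sum_congr rfl fun q _ => ?_
        rw [hπ, Finset.sum_mul]
        refine Finset.sum_congr rfl fun ω _ => ?_
        by_cases h2 : q = π ω
        · rw [if_pos h2, if_pos h2.symm]
        · rw [if_neg h2, if_neg (fun h3 => h2 h3.symm)]; simp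

end General

end Pool.Agent.H149R2.SD
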