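import Mathlib
import Pool.Agent.H149R2.SD.Base

/-!
The frame of the entropy certificate: six integer random variables `x, y, u, v, z, w` with
`x + y = u + v`, seven difference-determined pairs, and the symmetries.
-/

set_option autoImplicit false
open Finset

namespace Pool.Agent.H149R2.SD
open Pool.Agent.Helper981.KP

/-- coefficient vectors / value vectors in the order `x, y, u, v, z, w` -/
abbrev Six := ℤ × ℤ × ℤ × ℤ × ℤ × ℤ

def dot (c t : Six) : ℤ :=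
  c.1 * t.1 + c.2.1 * t.2.1 + c.2.2.1 * t.2.2.1 + c.2.2.2.1 * t.2.2.2.1 +
    c.2.2.2.2.1 * t.2.2.2.2.1 + c.2.2.2.2.2 * t.2.2.2.2.2

/-- admissible difference vectors -/
def Adm (t : Six) : Prop :=
  t.1 + t.2.1 = t.2.2.1 + t.2.2.2.1 ∧
  (t.1 - t.2.1 = 0 → t.1 = 0) ∧            -- (x,y)
  (t.2.2.1 - t.2.2.2.1 = 0 → t.2.2.1 = 0) ∧  -- (u,v)
  (t.2.2.2.2.1 - t.2.2.2.2.2 = 0 → t.2.2.2.2.1 = 0) ∧  -- (z,w)
  (t.2.2.2.2.1 - t.2.1 = 0 → t.2.1 = 0) ∧  -- (z,y)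
  (t.2.2.2.2.1 - t.2.2.2.1 = 0 → t.2.2.2.1 = 0) ∧  -- (z,v)
  (t.1 - t.2.2.2.2.2 = 0 → t.1 = 0) ∧  -- (x,w)
  (t.2.2.1 - t.2.2.2.2.2 = 0 → t.2.2.1 = 0)  -- (u,w)

def allZ : List Six → Six → Prop
  | [], _ => True
  | c :: l, t => dot c t = 0 ∧ allZ l t

def Det (P F : List Six) : Prop := ∀ t : Six, Adm t → allZ P t → allZ F t

def Det2 (P Q F : List Six) : Prop := ∀ t : Six, Adm t → allZ P t → allZ Q t → allZ F t

lemma allZ_iff (L : List Six) (a b : Six) :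
    L.map (fun c => dot c a) = L.map (fun c => dot c b) ↔
      allZ L (a.1 - b.1, a.2.1 - b.2.1, a.2.2.1 - b.2.2.1, a.2.2.2.1 - b.2.2.2.1,
        a.2.2.2.2.1 - b.2.2.2.2.1, a.2.2.2.2.2 - b.2.2.2.2.2) := by
  induction L with
  | nil => simp [allZ]
  | cons c l ih =>
    simp only [List.map_cons, List.cons.injEq, allZ, ih]
    refine and_congr ?_ Iff.rfl
    unfold dot
    constructor
    · intro h; linear_combination h
    · intro h; linear_combination h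

/-- swapping the two copies: `x ↔ u`, `y ↔ v` -/
def s1 (c : Six) : Six := (c.2.2.1, c.2.2.2.1, c.1, c.2.1, c.2.2.2.2.1, c.2.2.2.2.2)
/-- swapping the two types: `x ↔ y`, `u ↔ v`, `z ↔ w` -/
def s2 (c : Six) : Six := (c.2.1, c.1, c.2.2.2.1, c.2.2.1, c.2.2.2.2.2, c.2.2.2.2.1)
/-- `x ↔ z` -/
def t1 (c : Six) : Six := (c.2.2.2.2.1, c.2.1, c.2.2.1, c.2.2.2.1, c.1, c.2.2.2.2.2)
/-- `y ↔ w` -/
def t2 (c : Six) : Six := (c.1, c.2.2.2.2.2, c.2.2.1, c.2.2.2.1, c.2.2.2.2.1, c.2.1)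

def noUV : List Six → Prop
  | [] => True
  | c :: l => (c.2.2.1 = 0 ∧ c.2.2.2.1 = 0) ∧ noUV l

/-- The hypotheses under which the certificate is proved. -/
structure Frame where
  h : List Six → ℝ
  sub : ∀ F P Q T : List Six, Det P F → Det Q F → Det2 P Q T → h T + h F ≤ h P + h Q
  hs1 : ∀ L, h (L.map s1) = h L
  hs2 : ∀ L, h (L.map s2) = h L
  ht1 : ∀ L, noUV L → h (L.map t1) = h L
  ht2 : ∀ L, noUV L → h (L.map t2) = h L
  h0 : h [] = 0

/-- equality of entropies for lists that determine each other -/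
lemma Frame.congr (𝓕 : Frame) (P Q : List Six) (h1 : Det P Q) (h2 : Det Q P) :
    𝓕.h P = 𝓕.h Q := by
  have e1 := 𝓕.sub [] P [] Q (fun _ _ _ => trivial) (fun _ _ _ => trivial)
    (fun t ha hp _ => h1 t ha hp)
  have e2 := 𝓕.sub [] Q [] P (fun _ _ _ => trivial) (fun _ _ _ => trivial)
    (fun t ha hp _ => h2 t ha hp)
  linarith

end Pool.Agent.H149R2.SD
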