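import Mathlib
import Pool.Agent.H149R2.SD.Frame

set_option autoImplicit false

namespace Pool.Agent.H149R2.SD

lemma det_intro {P F : List Six}
    (H : ∀ x y u v z w : ℤ, x + y = u + v → (x - y = 0 → x = 0) → (u - v = 0 → u = 0) →
      (z - w = 0 → z = 0) → (z - y = 0 → y = 0) → (z - v = 0 → v = 0) → (x - w = 0 → x = 0) →
      (u - w = 0 → u = 0) → allZ P (x, y, u, v, z, w) → allZ F (x, y, u, v, z, w)) : Det P F := by
  rintro ⟨x, y, u, v, z, w⟩ ⟨r, g1, g2, g3, g4, g5, g6, g7⟩ h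
  exact H x y u v z w r g1 g2 g3 g4 g5 g6 g7 h

lemma det2_intro {P Q F : List Six}
    (H : ∀ x y u v z w : ℤ, x + y = u + v → (x - y = 0 → x = 0) → (u - v = 0 → u = 0) →
      (z - w = 0 → z = 0) → (z - y = 0 → y = 0) → (z - v = 0 → v = 0) → (x - w = 0 → x = 0) →
      (u - w = 0 → u = 0) → allZ P (x, y, u, v, z, w) → allZ Q (x, y, u, v, z, w) →
      allZ F (x, y, u, v, z, w)) : Det2 P Q F := by
  rintro ⟨x, y, u, v, z, w⟩ ⟨r, g1, g2, g3, g4, g5, g6, g7⟩ h h'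
  exact H x y u v z w r g1 g2 g3 g4 g5 g6 g7 h h'

end Pool.Agent.H149R2.SD
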