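import Mathlib
import Pool.Agent.H149R2.SD.Det

set_option autoImplicit false
set_option maxRecDepth 4000

namespace Pool.Agent.H149R2.SD

theorem e1 (𝓕 : Frame) : 𝓕.h [(1,0,0,0,0,0), (0,0,1,0,0,-1), (0,1,0,0,1,0)] = 𝓕.h [(1,0,0,0,0,0), (0,0,1,0,0,-1), (0,1,0,0,1,0)] :=
  rfl

theorem e2 (𝓕 : Frame) : 𝓕.h [(1,1,0,0,1,0)] = 𝓕.h [(1,1,0,0,1,0)] :=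
  rfl

theorem e3 (𝓕 : Frame) : 𝓕.h [(1,0,0,0,0,0), (0,1,0,0,1,0)] = 𝓕.h [(1,0,0,0,0,0), (0,1,0,0,1,0)] :=
  rfl

theorem e4 (𝓕 : Frame) : 𝓕.h [(1,1,0,0,1,0), (1,0,-1,0,0,1)] = 𝓕.h [(1,1,0,0,1,0), (1,0,-1,0,0,1)] :=
  rfl

theorem e5 (𝓕 : Frame) : 𝓕.h [(0,1,0,0,-1,0), (0,0,1,0,0,-1)] = 𝓕.h [(0,1,0,0,-1,0), (0,0,1,0,0,-1)] :=
  rfl

theorem e7 (𝓕 : Frame) : 𝓕.h [(1,-1,0,0,0,0)] = 𝓕.h [(1,-1,0,0,0,0)] :=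
  rfl

theorem e6 (𝓕 : Frame) : 𝓕.h [(0,-1,0,0,1,0)] = 𝓕.h [(1,-1,0,0,0,0)] :=
  Eq.trans (𝓕.ht1 [(1,-1,0,0,0,0)] (by simp [noUV]))
    (e7 𝓕)

theorem e9 (𝓕 : Frame) : 𝓕.h [(1,0,0,0,0,0), (0,0,0,1,-1,0)] = 𝓕.h [(1,0,0,0,0,0), (0,0,0,1,-1,0)] :=
  rfl

theorem e8 (𝓕 : Frame) : 𝓕.h [(0,0,1,0,0,0), (0,1,0,0,-1,0)] = 𝓕.h [(1,0,0,0,0,0), (0,0,0,1,-1,0)] :=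
  Eq.trans (𝓕.hs1 [(1,0,0,0,0,0), (0,0,0,1,-1,0)])
    (e9 𝓕)

theorem e11 (𝓕 : Frame) : 𝓕.h [(1,0,0,0,0,0), (0,0,0,0,1,-1)] = 𝓕.h [(1,0,0,0,0,0), (0,0,0,0,1,-1)] :=
  rfl

theorem e10 (𝓕 : Frame) : 𝓕.h [(0,1,0,0,0,0), (0,0,0,0,-1,1)] = 𝓕.h [(1,0,0,0,0,0), (0,0,0,0,1,-1)] :=
  Eq.trans (𝓕.hs2 [(1,0,0,0,0,0), (0,0,0,0,1,-1)])
    (e11 𝓕)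

theorem e12 (𝓕 : Frame) : 𝓕.h [(1,0,0,0,0,0), (0,0,1,0,1,0)] = 𝓕.h [(1,0,0,0,0,0), (0,0,1,0,1,0)] :=
  rfl

theorem e13 (𝓕 : Frame) : 𝓕.h [] = 𝓕.h [] :=
  rfl

theorem e14 (𝓕 : Frame) : 𝓕.h [(1,0,0,0,0,0)] = 𝓕.h [(1,0,0,0,0,0)] :=
  rfl

theorem e16 (𝓕 : Frame) : 𝓕.h [(1,0,0,0,1,0)] = 𝓕.h [(1,0,0,0,1,0)] :=
  rfl

theorem e15 (𝓕 : Frame) : 𝓕.h [(0,0,1,0,1,0)] = 𝓕.h [(1,0,0,0,1,0)] :=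
  Eq.trans (𝓕.hs1 [(1,0,0,0,1,0)])
    (e16 𝓕)

theorem e17 (𝓕 : Frame) : 𝓕.h [(1,0,0,0,0,0), (0,0,-1,1,0,0), (0,0,0,0,1,-1)] = 𝓕.h [(1,0,0,0,0,0), (0,0,-1,1,0,0), (0,0,0,0,1,-1)] :=
  rfl

theorem e18 (𝓕 : Frame) : 𝓕.h [(1,0,0,0,1,0), (0,1,-1,0,0,1)] = 𝓕.h [(1,0,0,0,1,0), (0,1,-1,0,0,1)] :=
  rfl

theorem e19 (𝓕 : Frame) : 𝓕.h [(1,0,0,0,0,0), (0,0,0,0,1,0), (0,0,0,1,0,1)] = 𝓕.h [(1,0,0,0,0,0), (0,0,0,0,1,0), (0,0,0,1,0,1)] :=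
  rfl

theorem e21 (𝓕 : Frame) : 𝓕.h [(1,0,0,0,0,0), (0,0,0,1,-1,0), (0,1,0,0,0,1)] = 𝓕.h [(1,0,0,0,0,0), (0,0,0,1,-1,0), (0,1,0,0,0,1)] :=
  rfl

theorem e20 (𝓕 : Frame) : 𝓕.h [(0,1,0,0,0,0), (0,0,1,0,0,-1), (1,0,0,0,1,0)] = 𝓕.h [(1,0,0,0,0,0), (0,0,0,1,-1,0), (0,1,0,0,0,1)] :=
  Eq.trans (𝓕.hs2 [(1,0,0,0,0,0), (0,0,0,1,-1,0), (0,1,0,0,0,1)])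
    (e21 𝓕)

theorem e22 (𝓕 : Frame) : 𝓕.h [(1,0,0,0,0,0), (0,1,0,0,1,0), (0,0,1,0,0,1)] = 𝓕.h [(1,0,0,0,0,0), (0,1,0,0,1,0), (0,0,1,0,0,1)] :=
  rfl

theorem e24 (𝓕 : Frame) : 𝓕.h [(1,0,0,0,0,1), (1,1,0,0,1,0)] = 𝓕.h [(1,0,0,0,0,1), (1,1,0,0,1,0)] :=
  rfl

theorem e23 (𝓕 : Frame) : 𝓕.h [(0,0,1,0,0,1), (0,0,1,1,1,0)] = 𝓕.h [(1,0,0,0,0,1), (1,1,0,0,1,0)] :=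
  Eq.trans (𝓕.hs1 [(1,0,0,0,0,1), (1,1,0,0,1,0)])
    (e24 𝓕)

theorem e25 (𝓕 : Frame) : 𝓕.h [(1,0,-1,0,0,0), (1,1,0,0,1,0)] = 𝓕.h [(1,0,-1,0,0,0), (1,1,0,0,1,0)] :=
  rfl

theorem e27 (𝓕 : Frame) : 𝓕.h [(1,0,0,0,0,0), (0,0,1,0,0,0), (0,1,0,0,0,1)] = 𝓕.h [(1,0,0,0,0,0), (0,0,1,0,0,0), (0,1,0,0,0,1)] :=
  rfl

theorem e26 (𝓕 : Frame) : 𝓕.h [(0,1,0,0,0,0), (0,0,0,1,0,0), (1,0,0,0,1,0)] = 𝓕.h [(1,0,0,0,0,0), (0,0,1,0,0,0), (0,1,0,0,0,1)] :=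
  Eq.trans (𝓕.hs2 [(1,0,0,0,0,0), (0,0,1,0,0,0), (0,1,0,0,0,1)])
    (e27 𝓕)

theorem e28 (𝓕 : Frame) : 𝓕.h [(0,0,0,0,1,1), (1,0,-1,0,0,0), (1,1,0,0,1,0)] = 𝓕.h [(0,0,0,0,1,1), (1,0,-1,0,0,0), (1,1,0,0,1,0)] :=
  rfl

theorem e29 (𝓕 : Frame) : 𝓕.h [(1,0,0,0,0,0), (0,0,1,0,0,0), (0,0,0,0,1,-1)] = 𝓕.h [(1,0,0,0,0,0), (0,0,1,0,0,0), (0,0,0,0,1,-1)] :=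
  rfl

theorem e30 (𝓕 : Frame) : 𝓕.h [(1,0,0,0,0,-1)] = 𝓕.h [(1,-1,0,0,0,0)] :=
  Eq.trans (𝓕.ht2 [(1,-1,0,0,0,0)] (by simp [noUV]))
    (e7 𝓕)

theorem e31 (𝓕 : Frame) : 𝓕.h [(1,0,0,0,0,0), (0,0,1,0,0,-1)] = 𝓕.h [(1,0,0,0,0,0), (0,0,1,0,0,-1)] :=
  rfl

theorem e32 (𝓕 : Frame) : 𝓕.h [(0,0,0,0,1,-1), (1,1,0,0,0,0), (1,0,-1,0,0,0)] = 𝓕.h [(0,0,0,0,1,-1), (1,1,0,0,0,0), (1,0,-1,0,0,0)] :=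
  rfl

theorem e33 (𝓕 : Frame) : 𝓕.h [(0,0,0,0,1,0), (1,1,0,0,0,0), (1,0,-1,0,0,1)] = 𝓕.h [(0,0,0,0,1,0), (1,1,0,0,0,0), (1,0,-1,0,0,1)] :=
  rfl

theorem e35 (𝓕 : Frame) : 𝓕.h [(0,0,0,0,1,0), (1,0,-1,0,0,0), (1,1,0,0,0,1)] = 𝓕.h [(0,0,0,0,1,0), (1,0,-1,0,0,0), (1,1,0,0,0,1)] :=
  rfl

theorem e34 (𝓕 : Frame) : 𝓕.h [(0,0,0,0,0,1), (0,1,0,-1,0,0), (1,1,0,0,1,0)] = 𝓕.h [(0,0,0,0,1,0), (1,0,-1,0,0,0), (1,1,0,0,0,1)] :=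
  Eq.trans (𝓕.hs2 [(0,0,0,0,1,0), (1,0,-1,0,0,0), (1,1,0,0,0,1)])
    (e35 𝓕)

theorem e36 (𝓕 : Frame) : 𝓕.h [(1,1,0,0,0,0), (0,0,0,0,1,1)] = 𝓕.h [(1,1,0,0,0,0), (0,0,0,0,1,1)] :=
  rfl

theorem e37 (𝓕 : Frame) : 𝓕.h [(1,1,0,0,0,0)] = 𝓕.h [(1,1,0,0,0,0)] :=
  rfl

theorem e39 (𝓕 : Frame) : 𝓕.h [(0,1,0,0,1,0)] = 𝓕.h [(1,1,0,0,0,0)] :=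
  Eq.trans (𝓕.ht1 [(1,1,0,0,0,0)] (by simp [noUV]))
    (e37 𝓕)

theorem e38 (𝓕 : Frame) : 𝓕.h [(0,0,0,0,1,1)] = 𝓕.h [(1,1,0,0,0,0)] :=
  Eq.trans (𝓕.ht2 [(0,1,0,0,1,0)] (by simp [noUV]))
    (e39 𝓕)

theorem e40 (𝓕 : Frame) : 𝓕.h [(0,0,0,1,1,0), (1,1,0,0,1,0), (1,0,-1,0,1,1), (1,0,-1,0,-1,-1)] = 𝓕.h [(0,0,0,1,1,0), (1,1,0,0,1,0), (1,0,-1,0,1,1), (1,0,-1,0,-1,-1)] :=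
  rfl

theorem e42 (𝓕 : Frame) : 𝓕.h [(1,0,0,0,0,0), (1,1,0,0,1,1)] = 𝓕.h [(1,0,0,0,0,0), (1,1,0,0,1,1)] :=
  rfl

theorem e41 (𝓕 : Frame) : 𝓕.h [(0,0,0,0,1,0), (1,1,0,0,1,1)] = 𝓕.h [(1,0,0,0,0,0), (1,1,0,0,1,1)] :=
  Eq.trans (𝓕.ht1 [(1,0,0,0,0,0), (1,1,0,0,1,1)] (by simp [noUV]))
    (e42 𝓕)

theorem e43 (𝓕 : Frame) : 𝓕.h [(0,0,0,0,1,0)] = 𝓕.h [(1,0,0,0,0,0)] :=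
  Eq.trans (𝓕.ht1 [(1,0,0,0,0,0)] (by simp [noUV]))
    (e14 𝓕)

theorem e44 (𝓕 : Frame) : 𝓕.h [(1,1,0,0,0,1)] = 𝓕.h [(1,1,0,0,1,0)] :=
  Eq.trans (𝓕.hs2 [(1,1,0,0,1,0)])
    (e2 𝓕)

theorem e45 (𝓕 : Frame) : 𝓕.h [(1,0,0,0,0,0), (0,0,-1,1,0,0)] = 𝓕.h [(1,0,0,0,0,0), (0,0,-1,1,0,0)] :=
  rfl

theorem e46 (𝓕 : Frame) : 𝓕.h [(1,-1,0,0,0,0), (0,0,0,0,1,-1)] = 𝓕.h [(1,-1,0,0,0,0), (0,0,0,0,1,-1)] :=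
  rfl

theorem e47 (𝓕 : Frame) : 𝓕.h [(1,-1,0,0,0,0), (0,0,0,0,1,1)] = 𝓕.h [(1,-1,0,0,0,0), (0,0,0,0,1,1)] :=
  rfl

theorem e48 (𝓕 : Frame) : 𝓕.h [(1,0,0,0,0,0), (0,0,1,0,0,1), (0,0,0,1,1,0)] = 𝓕.h [(1,0,0,0,0,0), (0,0,1,0,0,1), (0,0,0,1,1,0)] :=
  rfl

theorem e49 (𝓕 : Frame) : 𝓕.h [(1,1,0,0,1,1)] = 𝓕.h [(1,1,0,0,1,1)] :=
  rfl

theorem e51 (𝓕 : Frame) : 𝓕.h [(0,1,0,0,1,0), (1,0,0,0,0,1)] = 𝓕.h [(1,1,0,0,0,0), (0,0,0,0,1,1)] :=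
  Eq.trans (𝓕.ht1 [(1,1,0,0,0,0), (0,0,0,0,1,1)] (by simp [noUV]))
    (e36 𝓕)

theorem e50 (𝓕 : Frame) : 𝓕.h [(0,0,0,1,1,0), (0,0,1,0,0,1)] = 𝓕.h [(1,1,0,0,0,0), (0,0,0,0,1,1)] :=
  Eq.trans (𝓕.hs1 [(0,1,0,0,1,0), (1,0,0,0,0,1)])
    (e51 𝓕)

theorem e52 (𝓕 : Frame) : 𝓕.h [(0,0,1,0,0,1), (1,0,-1,0,1,0), (1,0,-1,0,-1,0), (0,1,-1,0,0,1)] = 𝓕.h [(0,0,1,0,0,1), (1,0,-1,0,1,0), (1,0,-1,0,-1,0), (0,1,-1,0,0,1)] :=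
  rfl

theorem e53 (𝓕 : Frame) : 𝓕.h [(1,0,0,0,0,1), (0,0,1,0,0,1)] = 𝓕.h [(1,0,0,0,0,1), (0,0,1,0,0,1)] :=
  rfl

theorem e54 (𝓕 : Frame) : 𝓕.h [(0,0,0,0,1,0), (1,0,0,0,0,1), (0,0,1,0,0,1)] = 𝓕.h [(0,0,0,0,1,0), (1,0,0,0,0,1), (0,0,1,0,0,1)] :=
  rfl

theorem e55 (𝓕 : Frame) : 𝓕.h [(1,0,0,0,0,1), (0,0,1,0,0,1), (0,1,-1,0,0,1)] = 𝓕.h [(1,0,0,0,0,1), (0,0,1,0,0,1), (0,1,-1,0,0,1)] :=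
  rfl

theorem e56 (𝓕 : Frame) : 𝓕.h [(0,0,0,0,1,0), (0,1,-1,0,-1,0)] = 𝓕.h [(0,0,0,0,1,0), (0,1,-1,0,-1,0)] :=
  rfl

theorem e57 (𝓕 : Frame) : 𝓕.h [(1,0,0,0,0,0), (0,0,0,0,1,0), (0,0,1,0,0,1)] = 𝓕.h [(1,0,0,0,0,0), (0,0,0,0,1,0), (0,0,1,0,0,1)] :=
  rfl

theorem e59 (𝓕 : Frame) : 𝓕.h [(1,0,-1,0,1,0)] = 𝓕.h [(1,0,-1,0,1,0)] :=
  rfl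

theorem e58 (𝓕 : Frame) : 𝓕.h [(0,1,0,-1,0,1)] = 𝓕.h [(1,0,-1,0,1,0)] :=
  Eq.trans (𝓕.hs2 [(1,0,-1,0,1,0)])
    (e59 𝓕)

theorem e60 (𝓕 : Frame) : 𝓕.h [(1,0,0,0,0,0), (0,0,1,0,0,1)] = 𝓕.h [(1,0,0,0,0,0), (0,0,1,0,0,1)] :=
  rfl

theorem e62 (𝓕 : Frame) : 𝓕.h [(0,0,0,0,1,0), (1,0,-1,0,0,1)] = 𝓕.h [(0,0,0,0,1,0), (1,0,-1,0,0,1)] :=
  rfl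

theorem e61 (𝓕 : Frame) : 𝓕.h [(0,0,0,0,1,0), (-1,0,1,0,0,1)] = 𝓕.h [(0,0,0,0,1,0), (1,0,-1,0,0,1)] :=
  Eq.trans (𝓕.hs1 [(0,0,0,0,1,0), (1,0,-1,0,0,1)])
    (e62 𝓕)

theorem e64 (𝓕 : Frame) : 𝓕.h [(1,0,0,0,0,0), (0,1,0,0,1,0), (0,0,0,0,1,1)] = 𝓕.h [(1,0,0,0,0,0), (0,1,0,0,1,0), (0,0,0,0,1,1)] :=
  rfl

theorem e63 (𝓕 : Frame) : 𝓕.h [(0,0,0,0,1,0), (1,1,0,0,0,0), (1,0,0,0,0,1)] = 𝓕.h [(1,0,0,0,0,0), (0,1,0,0,1,0), (0,0,0,0,1,1)] :=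
  Eq.trans (𝓕.ht1 [(1,0,0,0,0,0), (0,1,0,0,1,0), (0,0,0,0,1,1)] (by simp [noUV]))
    (e64 𝓕)

theorem e66 (𝓕 : Frame) : 𝓕.h [(1,0,0,0,0,0), (0,1,0,0,-1,0), (0,0,1,0,0,1)] = 𝓕.h [(1,0,0,0,0,0), (0,1,0,0,-1,0), (0,0,1,0,0,1)] :=
  rfl

theorem e65 (𝓕 : Frame) : 𝓕.h [(0,0,1,0,0,0), (0,0,0,1,-1,0), (1,0,0,0,0,1)] = 𝓕.h [(1,0,0,0,0,0), (0,1,0,0,-1,0), (0,0,1,0,0,1)] :=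
  Eq.trans (𝓕.hs1 [(1,0,0,0,0,0), (0,1,0,0,-1,0), (0,0,1,0,0,1)])
    (e66 𝓕)

theorem e69 (𝓕 : Frame) : 𝓕.h [(0,1,0,0,-1,0), (0,0,0,1,0,1)] = 𝓕.h [(0,1,0,0,-1,0), (0,0,0,1,0,1)] :=
  rfl

theorem e68 (𝓕 : Frame) : 𝓕.h [(0,0,0,1,-1,0), (0,1,0,0,0,1)] = 𝓕.h [(0,1,0,0,-1,0), (0,0,0,1,0,1)] :=
  Eq.trans (𝓕.hs1 [(0,1,0,0,-1,0), (0,0,0,1,0,1)])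
    (e69 𝓕)

theorem e67 (𝓕 : Frame) : 𝓕.h [(0,0,1,0,0,-1), (1,0,0,0,1,0)] = 𝓕.h [(0,1,0,0,-1,0), (0,0,0,1,0,1)] :=
  Eq.trans (𝓕.hs2 [(0,0,0,1,-1,0), (0,1,0,0,0,1)])
    (e68 𝓕)

theorem e70 (𝓕 : Frame) : 𝓕.h [(1,0,-1,0,1,1)] = 𝓕.h [(1,0,-1,0,1,1)] :=
  rfl

theorem e71 (𝓕 : Frame) : 𝓕.h [(1,-1,0,0,0,0), (0,0,0,1,-1,0)] = 𝓕.h [(1,-1,0,0,0,0), (0,0,0,1,-1,0)] :=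
  rfl

theorem e72 (𝓕 : Frame) : 𝓕.h [(0,1,-1,0,-1,0)] = 𝓕.h [(0,1,-1,0,-1,0)] :=
  rfl

theorem e73 (𝓕 : Frame) : 𝓕.h [(1,0,-1,0,0,0), (0,1,-1,0,-1,0)] = 𝓕.h [(1,0,-1,0,0,0), (0,1,-1,0,-1,0)] :=
  rfl

theorem e74 (𝓕 : Frame) : 𝓕.h [(0,1,0,0,0,0), (0,0,0,1,-1,0), (1,0,0,0,0,1)] = 𝓕.h [(1,0,0,0,0,0), (0,0,1,0,0,-1), (0,1,0,0,1,0)] :=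
  Eq.trans (𝓕.hs2 [(1,0,0,0,0,0), (0,0,1,0,0,-1), (0,1,0,0,1,0)])
    (e1 𝓕)

theorem e75 (𝓕 : Frame) : 𝓕.h [(0,0,0,0,1,0), (1,0,-1,0,0,0)] = 𝓕.h [(0,0,0,0,1,0), (1,0,-1,0,0,0)] :=
  rfl

theorem e76 (𝓕 : Frame) : 𝓕.h [(0,1,0,0,0,0), (0,0,0,1,-1,0)] = 𝓕.h [(1,0,0,0,0,0), (0,0,1,0,0,-1)] :=
  Eq.trans (𝓕.hs2 [(1,0,0,0,0,0), (0,0,1,0,0,-1)])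
    (e31 𝓕)

theorem e77 (𝓕 : Frame) : 𝓕.h [(1,0,0,0,0,1), (0,0,0,1,1,0)] = 𝓕.h [(1,0,0,0,0,1), (0,0,0,1,1,0)] :=
  rfl

theorem e78 (𝓕 : Frame) : 𝓕.h [(1,0,0,0,0,1)] = 𝓕.h [(1,1,0,0,0,0)] :=
  Eq.trans (𝓕.ht2 [(1,1,0,0,0,0)] (by simp [noUV]))
    (e37 𝓕)

theorem e79 (𝓕 : Frame) : 𝓕.h [(0,0,0,1,1,0)] = 𝓕.h [(1,1,0,0,0,0)] :=
  Eq.trans (𝓕.hs1 [(0,1,0,0,1,0)])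
    (e39 𝓕)

theorem e80 (𝓕 : Frame) : 𝓕.h [(0,0,0,0,1,-1)] = 𝓕.h [(1,-1,0,0,0,0)] :=
  Eq.trans (𝓕.ht2 [(0,-1,0,0,1,0)] (by simp [noUV]))
    (e6 𝓕)

theorem e81 (𝓕 : Frame) : 𝓕.h [(1,0,-1,0,0,0)] = 𝓕.h [(1,0,-1,0,0,0)] :=
  rfl

theorem e82 (𝓕 : Frame) : 𝓕.h [(1,0,0,0,0,0), (0,0,1,0,0,0), (0,1,0,0,1,0)] = 𝓕.h [(1,0,0,0,0,0), (0,0,1,0,0,0), (0,1,0,0,1,0)] :=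
  rfl

theorem e83 (𝓕 : Frame) : 𝓕.h [(1,0,0,0,0,1), (0,1,-1,0,-1,0)] = 𝓕.h [(1,0,0,0,0,1), (0,1,-1,0,-1,0)] :=
  rfl

theorem e84 (𝓕 : Frame) : 𝓕.h [(1,0,0,0,0,0), (0,0,1,0,0,0)] = 𝓕.h [(1,0,0,0,0,0), (0,0,1,0,0,0)] :=
  rfl

theorem e85 (𝓕 : Frame) : 𝓕.h [(0,1,0,0,0,0), (0,0,0,1,0,0)] = 𝓕.h [(1,0,0,0,0,0), (0,0,1,0,0,0)] :=
  Eq.trans (𝓕.hs2 [(1,0,0,0,0,0), (0,0,1,0,0,0)])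
    (e84 𝓕)

theorem e86 (𝓕 : Frame) : 𝓕.h [(0,0,0,0,1,0), (0,1,-1,0,0,1)] = 𝓕.h [(0,0,0,0,1,0), (0,1,-1,0,0,1)] :=
  rfl

theorem e87 (𝓕 : Frame) : 𝓕.h [(1,0,0,-1,0,-1)] = 𝓕.h [(0,1,-1,0,-1,0)] :=
  Eq.trans (𝓕.hs2 [(0,1,-1,0,-1,0)])
    (e72 𝓕)

theorem e89 (𝓕 : Frame) : 𝓕.h [(-1,0,1,0,1,0)] = 𝓕.h [(1,0,-1,0,1,0)] :=
  Eq.trans (𝓕.hs1 [(1,0,-1,0,1,0)])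
    (e59 𝓕)

theorem e88 (𝓕 : Frame) : 𝓕.h [(0,-1,0,1,0,1)] = 𝓕.h [(1,0,-1,0,1,0)] :=
  Eq.trans (𝓕.hs2 [(-1,0,1,0,1,0)])
    (e89 𝓕)

theorem e91 (𝓕 : Frame) : 𝓕.h [(1,1,0,0,0,0), (1,0,-1,0,1,0)] = 𝓕.h [(1,1,0,0,0,0), (1,0,-1,0,1,0)] :=
  rfl

theorem e90 (𝓕 : Frame) : 𝓕.h [(1,1,0,0,0,0), (0,1,0,-1,0,1)] = 𝓕.h [(1,1,0,0,0,0), (1,0,-1,0,1,0)] :=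
  Eq.trans (𝓕.hs2 [(1,1,0,0,0,0), (1,0,-1,0,1,0)])
    (e91 𝓕)

theorem e92 (𝓕 : Frame) : 𝓕.h [(1,-1,0,0,0,0), (0,0,1,0,0,1)] = 𝓕.h [(1,-1,0,0,0,0), (0,0,1,0,0,1)] :=
  rfl

theorem e93 (𝓕 : Frame) : 𝓕.h [(0,0,0,0,1,0), (0,0,1,1,0,0), (-1,0,1,0,0,1)] = 𝓕.h [(0,0,0,0,1,0), (1,1,0,0,0,0), (1,0,-1,0,0,1)] :=
  Eq.trans (𝓕.hs1 [(0,0,0,0,1,0), (1,1,0,0,0,0), (1,0,-1,0,0,1)])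
    (e33 𝓕)

theorem e94 (𝓕 : Frame) : 𝓕.h [(1,0,0,0,0,0), (0,1,0,0,0,1)] = 𝓕.h [(1,0,0,0,0,0), (0,1,0,0,0,1)] :=
  rfl

theorem e95 (𝓕 : Frame) : 𝓕.h [(0,1,0,0,0,1)] = 𝓕.h [(1,0,0,0,1,0)] :=
  Eq.trans (𝓕.hs2 [(1,0,0,0,1,0)])
    (e16 𝓕)

theorem e96 (𝓕 : Frame) : 𝓕.h [(1,0,0,0,0,1), (0,1,0,0,1,0), (0,0,1,0,0,1)] = 𝓕.h [(1,0,0,0,0,1), (0,1,0,0,1,0), (0,0,1,0,0,1)] :=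
  rfl

theorem e98 (𝓕 : Frame) : 𝓕.h [(1,0,0,0,0,0), (0,0,0,1,0,0), (0,1,0,0,1,0)] = 𝓕.h [(1,0,0,0,0,0), (0,0,0,1,0,0), (0,1,0,0,1,0)] :=
  rfl

theorem e97 (𝓕 : Frame) : 𝓕.h [(0,0,1,0,0,0), (0,1,0,0,0,0), (0,0,0,1,1,0)] = 𝓕.h [(1,0,0,0,0,0), (0,0,0,1,0,0), (0,1,0,0,1,0)] :=
  Eq.trans (𝓕.hs1 [(1,0,0,0,0,0), (0,0,0,1,0,0), (0,1,0,0,1,0)])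
    (e98 𝓕)

theorem e99 (𝓕 : Frame) : 𝓕.h [(0,1,0,0,0,0), (0,0,0,1,1,0)] = 𝓕.h [(1,0,0,0,0,0), (0,0,1,0,0,1)] :=
  Eq.trans (𝓕.hs2 [(1,0,0,0,0,0), (0,0,1,0,0,1)])
    (e60 𝓕)

theorem e100 (𝓕 : Frame) : 𝓕.h [(0,0,1,0,0,0), (1,0,0,0,1,0)] = 𝓕.h [(1,0,0,0,0,0), (0,0,1,0,1,0)] :=
  Eq.trans (𝓕.hs1 [(1,0,0,0,0,0), (0,0,1,0,1,0)])
    (e12 𝓕)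

theorem e101 (𝓕 : Frame) : 𝓕.h [(1,1,0,0,0,0), (1,0,-1,0,1,1)] = 𝓕.h [(1,1,0,0,0,0), (1,0,-1,0,1,1)] :=
  rfl

theorem e102 (𝓕 : Frame) : 𝓕.h [(1,0,0,1,1,1)] = 𝓕.h [(1,0,0,1,1,1)] :=
  rfl

theorem e103 (𝓕 : Frame) : 𝓕.h [(1,0,0,0,0,0), (0,0,1,0,1,0), (0,0,0,1,0,1)] = 𝓕.h [(1,0,0,0,0,0), (0,0,1,0,1,0), (0,0,0,1,0,1)] :=
  rfl

theorem e104 (𝓕 : Frame) : 𝓕.h [(1,0,0,0,0,0), (0,0,0,1,0,1)] = 𝓕.h [(1,0,0,0,0,0), (0,0,0,1,0,1)] :=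
  rfl

theorem e105 (𝓕 : Frame) : 𝓕.h [(0,0,1,0,1,0), (-1,0,0,1,0,1)] = 𝓕.h [(1,0,0,0,1,0), (0,1,-1,0,0,1)] :=
  Eq.trans (𝓕.hs1 [(1,0,0,0,1,0), (0,1,-1,0,0,1)])
    (e18 𝓕)

theorem e106 (𝓕 : Frame) : 𝓕.h [(1,0,0,0,0,0), (0,0,0,1,0,0)] = 𝓕.h [(1,0,0,0,0,0), (0,0,0,1,0,0)] :=
  rfl

theorem e107 (𝓕 : Frame) : 𝓕.h [(0,0,0,1,0,0), (1,0,0,0,0,0), (0,0,1,0,0,1)] = 𝓕.h [(1,0,0,0,0,0), (0,0,0,1,0,0), (0,1,0,0,1,0)] :=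
  Eq.trans (𝓕.hs2 [(0,0,1,0,0,0), (0,1,0,0,0,0), (0,0,0,1,1,0)])
    (e97 𝓕)

theorem e108 (𝓕 : Frame) : 𝓕.h [(0,0,0,1,0,1)] = 𝓕.h [(1,0,0,0,1,0)] :=
  Eq.trans (𝓕.hs2 [(0,0,1,0,1,0)])
    (e15 𝓕)

theorem e109 (𝓕 : Frame) : 𝓕.h [(0,1,0,0,0,0), (1,0,0,0,0,-1), (0,0,0,1,1,0)] = 𝓕.h [(1,0,0,0,0,0), (0,1,0,0,-1,0), (0,0,1,0,0,1)] :=
  Eq.trans (𝓕.hs2 [(1,0,0,0,0,0), (0,1,0,0,-1,0), (0,0,1,0,0,1)])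
    (e66 𝓕)

theorem e111 (𝓕 : Frame) : 𝓕.h [(1,0,0,0,1,0), (1,0,-1,0,0,-1)] = 𝓕.h [(1,0,0,0,1,0), (1,0,-1,0,0,-1)] :=
  rfl

theorem e110 (𝓕 : Frame) : 𝓕.h [(0,1,0,0,0,1), (0,1,0,-1,-1,0)] = 𝓕.h [(1,0,0,0,1,0), (1,0,-1,0,0,-1)] :=
  Eq.trans (𝓕.hs2 [(1,0,0,0,1,0), (1,0,-1,0,0,-1)])
    (e111 𝓕)

theorem e112 (𝓕 : Frame) : 𝓕.h [(1,0,0,0,0,0), (0,-1,0,0,1,0)] = 𝓕.h [(1,0,0,0,0,0), (0,0,0,0,1,-1)] :=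
  Eq.trans (𝓕.ht2 [(1,0,0,0,0,0), (0,0,0,0,1,-1)] (by simp [noUV]))
    (e11 𝓕)

theorem e113 (𝓕 : Frame) : 𝓕.h [(-1,1,0,0,0,0), (0,0,1,0,0,-1)] = 𝓕.h [(1,-1,0,0,0,0), (0,0,0,1,-1,0)] :=
  Eq.trans (𝓕.hs2 [(1,-1,0,0,0,0), (0,0,0,1,-1,0)])
    (e71 𝓕)

theorem e114 (𝓕 : Frame) : 𝓕.h [(1,0,0,0,0,0), (0,0,1,0,0,0), (0,0,0,0,1,0)] = 𝓕.h [(1,0,0,0,0,0), (0,0,1,0,0,0), (0,0,0,0,1,0)] :=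
  rfl

theorem e115 (𝓕 : Frame) : 𝓕.h [(1,0,0,0,0,-1), (0,0,1,0,1,0)] = 𝓕.h [(0,1,0,0,-1,0), (0,0,0,1,0,1)] :=
  Eq.trans (𝓕.hs2 [(0,1,0,0,-1,0), (0,0,0,1,0,1)])
    (e69 𝓕)

theorem e116 (𝓕 : Frame) : 𝓕.h [(1,0,-1,0,0,0), (1,1,0,0,1,1)] = 𝓕.h [(1,0,-1,0,0,0), (1,1,0,0,1,1)] :=
  rfl

theorem e117 (𝓕 : Frame) : 𝓕.h [(1,0,0,0,0,1), (0,0,1,0,0,1), (0,1,-1,0,-1,0)] = 𝓕.h [(1,0,0,0,0,1), (0,0,1,0,0,1), (0,1,-1,0,-1,0)] :=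
  rfl

theorem e118 (𝓕 : Frame) : 𝓕.h [(1,0,0,0,0,-1), (0,1,0,0,1,0)] = 𝓕.h [(1,-1,0,0,0,0), (0,0,0,0,1,1)] :=
  Eq.trans (𝓕.ht2 [(1,-1,0,0,0,0), (0,0,0,0,1,1)] (by simp [noUV]))
    (e47 𝓕)

theorem e119 (𝓕 : Frame) : 𝓕.h [(0,0,1,0,0,0), (0,0,0,1,1,0), (1,0,0,0,0,1)] = 𝓕.h [(1,0,0,0,0,0), (0,1,0,0,1,0), (0,0,1,0,0,1)] :=
  Eq.trans (𝓕.hs1 [(1,0,0,0,0,0), (0,1,0,0,1,0), (0,0,1,0,0,1)])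
    (e22 𝓕)

theorem e121 (𝓕 : Frame) : 𝓕.h [(0,0,1,0,0,0), (1,0,0,0,1,0), (0,1,0,0,0,1)] = 𝓕.h [(1,0,0,0,0,0), (0,0,1,0,1,0), (0,0,0,1,0,1)] :=
  Eq.trans (𝓕.hs1 [(1,0,0,0,0,0), (0,0,1,0,1,0), (0,0,0,1,0,1)])
    (e103 𝓕)

theorem e120 (𝓕 : Frame) : 𝓕.h [(0,0,0,1,0,0), (0,1,0,0,0,1), (1,0,0,0,1,0)] = 𝓕.h [(1,0,0,0,0,0), (0,0,1,0,1,0), (0,0,0,1,0,1)] :=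
  Eq.trans (𝓕.hs2 [(0,0,1,0,0,0), (1,0,0,0,1,0), (0,1,0,0,0,1)])
    (e121 𝓕)

theorem e122 (𝓕 : Frame) : 𝓕.h [(0,0,0,1,0,0), (1,0,0,0,0,-1)] = 𝓕.h [(1,0,0,0,0,0), (0,0,0,1,-1,0)] :=
  Eq.trans (𝓕.hs2 [(0,0,1,0,0,0), (0,1,0,0,-1,0)])
    (e8 𝓕)

theorem e123 (𝓕 : Frame) : 𝓕.h [(0,0,1,0,0,1)] = 𝓕.h [(1,1,0,0,0,0)] :=
  Eq.trans (𝓕.hs1 [(1,0,0,0,0,1)])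
    (e78 𝓕)

theorem e124 (𝓕 : Frame) : 𝓕.h [(0,0,1,0,0,0), (0,1,0,0,0,1)] = 𝓕.h [(1,0,0,0,0,0), (0,0,0,1,0,1)] :=
  Eq.trans (𝓕.hs1 [(1,0,0,0,0,0), (0,0,0,1,0,1)])
    (e104 𝓕)

theorem e125 (𝓕 : Frame) : 𝓕.h [(0,1,0,-1,0,0), (1,1,0,0,0,1)] = 𝓕.h [(1,0,-1,0,0,0), (1,1,0,0,1,0)] :=
  Eq.trans (𝓕.hs2 [(1,0,-1,0,0,0), (1,1,0,0,1,0)])
    (e25 𝓕)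

theorem e126 (𝓕 : Frame) : 𝓕.h [(0,1,0,0,0,0), (1,0,0,0,1,0)] = 𝓕.h [(1,0,0,0,0,0), (0,1,0,0,0,1)] :=
  Eq.trans (𝓕.hs2 [(1,0,0,0,0,0), (0,1,0,0,0,1)])
    (e94 𝓕)

theorem e127 (𝓕 : Frame) : 𝓕.h [(0,0,0,0,1,1), (1,1,0,0,1,0)] = 𝓕.h [(1,0,0,0,0,1), (1,1,0,0,1,0)] :=
  Eq.trans (𝓕.ht1 [(1,0,0,0,0,1), (1,1,0,0,1,0)] (by simp [noUV]))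
    (e24 𝓕)

theorem e128 (𝓕 : Frame) : 𝓕.h [(0,0,1,0,0,0), (0,0,0,1,1,0), (0,0,0,0,1,1)] = 𝓕.h [(1,0,0,0,0,0), (0,1,0,0,1,0), (0,0,0,0,1,1)] :=
  Eq.trans (𝓕.hs1 [(1,0,0,0,0,0), (0,1,0,0,1,0), (0,0,0,0,1,1)])
    (e64 𝓕)

end Pool.Agent.H149R2.SD
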