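import Mathlib
import Pool.Agent.H149R2.SD.Ineq

set_option autoImplicit false
set_option maxRecDepth 4000

namespace Pool.Agent.H149R2.SD

theorem final_lin (v1 v2 v3 v4 v5 v6 v7 v8 v9 v10 v11 v12 v13 v14 v15 v16 v17 v18 v19 v20 v21 v22 v23 v24 v25 v26 v27 v28 v29 v30 v31 v32 v33 v34 v35 v36 v37 v38 v39 v40 v41 v42 v43 v44 v45 v46 v47 v48 v49 v50 v51 v52 v53 v54 v55 v56 v57 v58 v59 v60 v61 v62 v63 v64 v65 v66 v67 v68 v69 v70 v71 v72 A S : ℝ)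
    (i1 : v58 + v7 ≤ v19 + v47)
    (i2 : v33 + v3 ≤ v17 + v16)
    (i3 : v21 + v1 ≤ v2 + v5)
    (i4 : v55 + v39 ≤ v54 + v57)
    (i5 : v59 + v7 ≤ v19 + v42)
    (i6 : v55 + v44 ≤ v51 + v70)
    (i7 : v49 + v3 ≤ v18 + v16)
    (i8 : v66 + v47 ≤ v63 + v65)
    (i9 : v35 + v1 ≤ v4 + v4)
    (i10 : v55 + v70 ≤ v71 + v66)
    (i11 : v24 + v1 ≤ v2 + v7)
    (i12 : v55 + v3 ≤ v15 + v29)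
    (i13 : v32 + v1 ≤ v3 + v4)
    (i14 : v62 + v8 ≤ v24 + v35)
    (i15 : v72 + v40 ≤ v64 + v69)
    (i16 : v55 + v27 ≤ v17 + v33)
    (i17 : v53 + v9 ≤ v22 + v26)
    (i18 : v55 + v60 ≤ v29 + v56)
    (i19 : v34 + v1 ≤ v5 + v11)
    (i20 : v30 + v10 ≤ v27 + v46)
    (i21 : v58 + v25 ≤ v18 + v64)
    (i22 : v41 + v1 ≤ v4 + v4)
    (i23 : v29 + v1 ≤ v3 + v3)
    (i24 : v46 + v1 ≤ v6 + v10)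
    (i25 : v19 + v1 ≤ v2 + v4)
    (i26 : v55 + v50 ≤ v30 + v58)
    (i27 : v43 + v1 ≤ v4 + v10)
    (i28 : v55 + v64 ≤ v49 + v58)
    (i29 : v15 + v6 ≤ v13 + v13)
    (i30 : v28 + v1 ≤ v2 + v10)
    (i31 : v18 + v1 ≤ v2 + v9)
    (i32 : v56 + v36 ≤ v31 + v63)
    (i33 : v20 + v1 ≤ v2 + v5)
    (i34 : v58 + v40 ≤ v18 + v67)
    (i35 : v55 + v6 ≤ v18 + v18)
    (i36 : v52 + v9 ≤ v22 + v21)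
    (i37 : v37 + v1 ≤ v4 + v12)
    (i38 : v63 + v11 ≤ v26 + v37)
    (i39 : v61 + v10 ≤ v23 + v39)
    (i40 : v55 + v14 ≤ v52 + v52)
    (i41 : v23 + v1 ≤ v2 + v5)
    (i42 : v56 + v9 ≤ v36 + v38)
    (i43 : v55 + v3 ≤ v16 + v30)
    (i44 : v49 + v21 ≤ v48 + v34)
    (i45 : v55 + v31 ≤ v30 + v56)
    (i46 : v26 + v1 ≤ v2 + v9)
    (i47 : v45 + v1 ≤ v6 + v8)
    (i48 : v54 + v10 ≤ v23 + v28)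
    (i49 : v17 + v1 ≤ v2 + v10)
    (i50 : v68 + v4 ≤ v40 + v43)
    (i51 : v58 + v42 ≤ v32 + v59)
    (i52 : v55 + v69 ≤ v30 + v72)
    (i53 : v57 + v38 ≤ v53 + v61)
    (i54 : v58 + v22 ≤ v18 + v62)
    (i55 : v17 + v2 ≤ v14 + v3)
    (i56 : v16 + v1 ≤ v4 + v5)
    (i57 : v55 + v13 ≤ v50 + v51)
    (i58 : v22 + v1 ≤ v2 + v4)
    (i59 : v51 + v10 ≤ v23 + v23)
    (i60 : v65 + v6 ≤ v25 + v44)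
    (i61 : v48 + v6 ≤ v13 + v25)
    (i62 : v55 + v46 ≤ v51 + v68)
    (i63 : v67 + v12 ≤ v41 + v45)
    (i64 : v29 + v7 ≤ v20 + v42)
    (i65 : v71 + v42 ≤ v60 + v60)
    (b1 : v2 ≤ A) (b2 : v4 ≤ S) (b3 : v5 ≤ S) (b0 : v1 = 0) :
    423 * v55 ≤ 690 * A + 808 * S := by
  linarith only [i1, i2, i3, i4, i5, i6, i7, i8, i9, i10, i11, i12, i13, i14, i15, i16, i17, i18, i19, i20, i21, i22, i23, i24, i25, i26, i27, i28, i29, i30, i31, i32, i33, i34, i35, i36, i37, i38, i39, i40, i41, i42, i43, i44, i45, i46, i47, i48, i49, i50, i51, i52, i53, i54, i55, i56, i57, i58, i59, i60, i61, i62, i63, i64, i65, b1, b2, b3, b0]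

theorem cert (𝓕 : Frame) (A S : ℝ) (b1 : 𝓕.h [(1,0,0,0,0,0)] ≤ A) (b2 : 𝓕.h [(1,1,0,0,0,0)] ≤ S)
    (b3 : 𝓕.h [(1,0,0,0,1,0)] ≤ S) : 423 * 𝓕.h [(1,0,0,0,0,0), (0,0,-1,1,0,0), (0,0,0,0,1,-1)] ≤ 690 * A + 808 * S :=
  final_lin _ _ _ _ _ _ _ _ _ _ _ _ _ _ _ _ _ _ _ _ _ _ _ _ _ _ _ _ _ _ _ _ _ _ _ _ _ _ _ _ _ _ _ _ _ _ _ _ _ _ _ _ _ _ _ _ _ _ _ _ _ _ _ _ _ _ _ _ _ _ _ _ A S (c1 𝓕) (c2 𝓕) (c3 𝓕) (c4 𝓕) (c5 𝓕) (c6 𝓕) (c7 𝓕) (c8 𝓕) (c9 𝓕) (c10 𝓕) (c11 𝓕) (c12 𝓕) (c13 𝓕) (c14 𝓕) (c15 𝓕) (c16 𝓕) (c17 𝓕) (c18 𝓕) (c19 𝓕) (c20 𝓕) (c21 𝓕) (c22 𝓕) (c23 𝓕) (c24 𝓕) (c25 𝓕) (c26 𝓕) (c27 𝓕) (c28 𝓕) (c29 𝓕) (c30 𝓕) (c31 𝓕) (c32 𝓕) (c33 𝓕) (c34 𝓕) (c35 𝓕) (c36 𝓕) (c37 𝓕) (c38 𝓕) (c39 𝓕) (c40 𝓕) (c41 𝓕) (c42 𝓕) (c43 𝓕) (c44 𝓕) (c45 𝓕) (c46 𝓕) (c47 𝓕)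 (c48 𝓕) (c49 𝓕) (c50 𝓕) (c51 𝓕) (c52 𝓕) (c53 𝓕) (c54 𝓕) (c55 𝓕) (c56 𝓕) (c57 𝓕) (c58 𝓕) (c59 𝓕) (c60 𝓕) (c61 𝓕) (c62 𝓕) (c63 𝓕) (c64 𝓕) (c65 𝓕)
    b1 b2 b3 𝓕.h0

end Pool.Agent.H149R2.SD
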