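import Mathlib
import Pool.Agent.H149R2.SD.Frame

/-!
The law: `(x,y,z,w)` uniform on the homomorphisms of `K_{2,2}` into the graph `G`, and a
conditionally independent copy `(u,v,z,w)` given `(z,w,x+y)`.
-/

set_option autoImplicit false
open Finset
open scoped Pointwise

namespace Pool.Agent.H149R2.SD
open Pool.Agent.Helper981.KP

/-- The data: a finite set with a symmetric graph on it whose edges are determined by their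
difference. -/
structure Data where
  A : Finset ℤ
  G : Finset (ℤ × ℤ)
  sub : G ⊆ A ×ˢ A
  symm : ∀ a b, (a, b) ∈ G → (b, a) ∈ G
  inj : ∀ a b a' b', (a, b) ∈ G → (a', b') ∈ G → a - b = a' - b' → a = a'
  ne : G.Nonempty

namespace Data
variable (𝓓 : Data)

abbrev Four := ℤ × ℤ × ℤ × ℤ

/-- `K_{2,2}`-homomorphisms `(x,y,z,w)`. -/
def Q : Finset Four :=
  (𝓓.A ×ˢ 𝓓.A ×ˢ 𝓓.A ×ˢ 𝓓.A).filter fun q =>
    (q.1, q.2.1) ∈ 𝓓.G ∧ (q.2.2.1, q.2.1) ∈ 𝓓.G ∧ (q.1, q.2.2.2) ∈ 𝓓.G ∧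
      (q.2.2.1, q.2.2.2) ∈ 𝓓.G

lemma mem_A_of_G {a b : ℤ} (h : (a, b) ∈ 𝓓.G) : a ∈ 𝓓.A ∧ b ∈ 𝓓.A := by
  have := 𝓓.sub h
  rwa [Finset.mem_product] at this

lemma mem_Q (x y z w : ℤ) : (x, y, z, w) ∈ 𝓓.Q ↔
    (x, y) ∈ 𝓓.G ∧ (z, y) ∈ 𝓓.G ∧ (x, w) ∈ 𝓓.G ∧ (z, w) ∈ 𝓓.G := by
  unfold Q
  simp only [Finset.mem_filter, Finset.mem_product]
  constructor
  · exact fun h => h.2
  · intro h
    exact ⟨⟨(𝓓.mem_A_of_G h.1).1, (𝓓.mem_A_of_G h.1).2, (𝓓.mem_A_of_G h.2.1).1,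
      (𝓓.mem_A_of_G h.2.2.1).2⟩, h⟩

lemma Q_ne : 𝓓.Q.Nonempty := by
  obtain ⟨⟨a, b⟩, h⟩ := 𝓓.ne
  exact ⟨(a, b, a, b), (𝓓.mem_Q _ _ _ _).2 ⟨h, h, h, h⟩⟩

/-- Sidorenko's inequality for the 4-cycle -/
theorem card_Q : (𝓓.G.card : ℝ) ^ 4 ≤ 𝓓.Q.card * (𝓓.A.card : ℝ) ^ 4 := by
  classical
  set g : ℤ → ℤ → ℝ := fun a b => if (a, b) ∈ 𝓓.G then 1 else 0 with hg
  have hG : (𝓓.G.card : ℝ) = ∑ y ∈ 𝓓.A, ∑ x ∈ 𝓓.A, g x y := by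
    rw [Finset.sum_comm, ← Finset.sum_product']
    rw [hg, ← Finset.sum_filter]
    rw [Finset.sum_const, nsmul_eq_mul, mul_one]
    congr 2
    ext ⟨a, b⟩
    simp only [Finset.mem_filter]
    exact ⟨fun h => ⟨𝓓.sub h, h⟩, fun h => h.2⟩
  have hQ : (𝓓.Q.card : ℝ) = ∑ p ∈ 𝓓.A ×ˢ 𝓓.A, (∑ y ∈ 𝓓.A, g p.1 y * g p.2 y) ^ 2 := by
    have e1 : ∀ p : ℤ × ℤ, (∑ y ∈ 𝓓.A, g p.1 y * g p.2 y) ^ 2 =
        ∑ y ∈ 𝓓.A, ∑ w ∈ 𝓓.A, g p.1 y * g p.2 y * (g p.1 w * g p.2 w) := by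
      intro p
      rw [sq, Finset.sum_mul_sum]
    simp only [e1]
    rw [Finset.sum_product]
    have e2 : (𝓓.Q.card : ℝ) = ∑ x ∈ 𝓓.A, ∑ y ∈ 𝓓.A, ∑ z ∈ 𝓓.A, ∑ w ∈ 𝓓.A,
        g x y * g z y * (g x w * g z w) := by
      unfold Q
      rw [Finset.card_filter]
      push_cast
      rw [Finset.sum_product]
      refine Finset.sum_congr rfl fun x _ => ?_
      rw [Finset.sum_product]
      refine Finset.sum_congr rfl fun y _ => ?_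
      rw [Finset.sum_product]
      refine Finset.sum_congr rfl fun z _ => ?_
      refine Finset.sum_congr rfl fun w _ => ?_
      simp only [hg]
      by_cases h1 : (x, y) ∈ 𝓓.G <;> by_cases h2 : (z, y) ∈ 𝓓.G <;>
        by_cases h3 : (x, w) ∈ 𝓓.G <;> by_cases h4 : (z, w) ∈ 𝓓.G <;> simp [h1, h2, h3, h4]
    rw [e2]
    refine Finset.sum_congr rfl fun x _ => ?_
    exact Finset.sum_comm
  have hcd : ∑ p ∈ 𝓓.A ×ˢ 𝓓.A, (∑ y ∈ 𝓓.A, g p.1 y * g p.2 y) =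
      ∑ y ∈ 𝓓.A, (∑ x ∈ 𝓓.A, g x y) ^ 2 := by
    rw [Finset.sum_comm]
    refine Finset.sum_congr rfl fun y _ => ?_
    rw [sq, Finset.sum_mul_sum, Finset.sum_product]
  have c1 : (∑ y ∈ 𝓓.A, ∑ x ∈ 𝓓.A, g x y) ^ 2 ≤
      (𝓓.A.card : ℝ) * ∑ y ∈ 𝓓.A, (∑ x ∈ 𝓓.A, g x y) ^ 2 := sq_sum_le_card_mul_sum_sq
  have c2 : (∑ p ∈ 𝓓.A ×ˢ 𝓓.A, (∑ y ∈ 𝓓.A, g p.1 y * g p.2 y)) ^ 2 ≤
      ((𝓓.A ×ˢ 𝓓.A).card : ℝ) * ∑ p ∈ 𝓓.A ×ˢ 𝓓.A, (∑ y ∈ 𝓓.A, g p.1 y * g p.2 y) ^ 2 :=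
    sq_sum_le_card_mul_sum_sq
  rw [← hG] at c1
  rw [hcd, ← hQ, Finset.card_product] at c2
  push_cast at c2
  set s := ∑ y ∈ 𝓓.A, (∑ x ∈ 𝓓.A, g x y) ^ 2 with hs
  set a : ℝ := (𝓓.A.card : ℝ)
  have ha : 0 ≤ a := Nat.cast_nonneg _
  have hs0 : 0 ≤ s := Finset.sum_nonneg fun _ _ => sq_nonneg _
  calc (𝓓.G.card : ℝ) ^ 4 = ((𝓓.G.card : ℝ) ^ 2) ^ 2 := by ring
    _ ≤ (a * s) ^ 2 := by gcongr
    _ = a ^ 2 * s ^ 2 := by ring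
    _ ≤ a ^ 2 * (a * a * 𝓓.Q.card) := by gcongr
    _ = 𝓓.Q.card * a ^ 4 := by ring

/-- the conditioning variable -/
def κ (q : Four) : ℤ × ℤ × ℤ := (q.2.2.1, q.2.2.2, q.1 + q.2.1)

/-- sample space -/
abbrev Om : Type := {p : 𝓓.Q × 𝓓.Q // κ p.1.1 = κ p.2.1}

noncomputable instance : Fintype 𝓓.Om := by
  classical
  exact inferInstance

/-- size of the fibre -/
noncomputable def c (k : ℤ × ℤ × ℤ) : ℝ := ((𝓓.Q.filter fun q => κ q = k).card : ℝ)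

lemma c_pos (q : Four) (hq : q ∈ 𝓓.Q) : 0 < 𝓓.c (κ q) := by
  have : (𝓓.Q.filter fun q' => κ q' = κ q).Nonempty := ⟨q, Finset.mem_filter.2 ⟨hq, rfl⟩⟩
  unfold c
  exact_mod_cast Finset.card_pos.mpr this

lemma Qpos : (0 : ℝ) < 𝓓.Q.card := by
  exact_mod_cast Finset.card_pos.mpr 𝓓.Q_ne

/-- the weights -/
noncomputable def wt (ω : 𝓓.Om) : ℝ := 1 / (𝓓.Q.card * 𝓓.c (κ ω.1.1.1))

lemma wt_pos (ω : 𝓓.Om) : 0 < 𝓓.wt ω := by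
  unfold wt
  have := 𝓓.c_pos _ ω.1.1.2
  have := 𝓓.Qpos
  positivity

/-- marginal on the first coordinate -/
lemma marg (q : 𝓓.Q) : (1 / 𝓓.Q.card : ℝ) = ∑ ω : 𝓓.Om, if ω.1.1 = q then 𝓓.wt ω else 0 := by
  classical
  have hc := 𝓓.c_pos _ q.2
  have hQ := 𝓓.Qpos
  have e1 : ∑ ω : 𝓓.Om, (if ω.1.1 = q then 𝓓.wt ω else 0) =
      ∑ p : 𝓓.Q × 𝓓.Q, if κ p.1.1 = κ p.2.1 then
        (if p.1 = q then 1 / (𝓓.Q.card * 𝓓.c (κ p.1.1)) else 0) else 0 := by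
    have e0 := Finset.sum_filter (s := (Finset.univ : Finset (𝓓.Q × 𝓓.Q)))
      (fun p : 𝓓.Q × 𝓓.Q => κ p.1.1 = κ p.2.1)
      (fun p => if p.1 = q then 1 / (𝓓.Q.card * 𝓓.c (κ p.1.1)) else 0)
    rw [← e0]
    rw [Finset.sum_subtype (p := fun p : 𝓓.Q × 𝓓.Q => κ p.1.1 = κ p.2.1)
      (Finset.univ.filter fun p : 𝓓.Q × 𝓓.Q => κ p.1.1 = κ p.2.1) (by intro p; simp)]
    rfl
  rw [e1, Fintype.sum_prod_type]
  rw [Finset.sum_eq_single q]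
  · simp only [if_true]
    rw [← Finset.sum_filter, Finset.sum_const, nsmul_eq_mul]
    have e2 : ((Finset.univ.filter fun q' : 𝓓.Q => κ q.1 = κ q'.1).card : ℝ) = 𝓓.c (κ q.1) := by
      unfold c
      congr 1
      refine Finset.card_bij (fun q' _ => q'.1) ?_ ?_ ?_
      · intro a ha
        simp only [Finset.mem_filter, Finset.mem_univ, true_and] at ha
        exact Finset.mem_filter.2 ⟨a.2, ha.symm⟩
      · intro a _ b _ h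
        exact Subtype.ext h
      · intro b hb
        rw [Finset.mem_filter] at hb
        exact ⟨⟨b, hb.1⟩, by simp [hb.2], rfl⟩
    rw [e2]
    field_simp
  · intro p _ hp
    simp [hp]
  · simp

lemma wt_sum : ∑ ω : 𝓓.Om, 𝓓.wt ω = 1 := by
  classical
  have h1 : ∑ ω : 𝓓.Om, 𝓓.wt ω = ∑ ω : 𝓓.Om, ∑ q : 𝓓.Q, if ω.1.1 = q then 𝓓.wt ω else 0 := by
    refine Finset.sum_congr rfl fun ω _ => ?_
    simp
  rw [h1, Finset.sum_comm]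
  simp only [← 𝓓.marg]
  rw [Finset.sum_const, nsmul_eq_mul, Finset.card_univ, Fintype.card_coe]
  have := 𝓓.Qpos
  field_simp

/-- values -/
def val (ω : 𝓓.Om) : Six :=
  (ω.1.1.1.1, ω.1.1.1.2.1, ω.1.2.1.1, ω.1.2.1.2.1, ω.1.1.1.2.2.1, ω.1.1.1.2.2.2)

noncomputable def h (L : List Six) : ℝ :=
  Hf 𝓓.wt (fun ω => L.map (fun c => dot c (𝓓.val ω)))

lemma adm (ω ω' : 𝓓.Om) :
    Adm ((𝓓.val ω).1 - (𝓓.val ω').1, (𝓓.val ω).2.1 - (𝓓.val ω').2.1,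
      (𝓓.val ω).2.2.1 - (𝓓.val ω').2.2.1, (𝓓.val ω).2.2.2.1 - (𝓓.val ω').2.2.2.1,
        (𝓓.val ω).2.2.2.2.1 - (𝓓.val ω').2.2.2.2.1,
        (𝓓.val ω).2.2.2.2.2 - (𝓓.val ω').2.2.2.2.2) := by
  obtain ⟨⟨⟨⟨x, y, z, w⟩, hq⟩, ⟨⟨u, v, z', w'⟩, hq'⟩⟩, hk⟩ := ω
  obtain ⟨⟨⟨⟨x1, y1, z1, w1⟩, hq1⟩, ⟨⟨u1, v1, z1', w1'⟩, hq1'⟩⟩, hk1⟩ := ω'
  simp only [κ, Prod.mk.injEq] at hk hk1
  obtain ⟨rfl, rfl, hs⟩ := hk
  obtain ⟨rfl, rfl, hs1⟩ := hk1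
  rw [mem_Q] at hq hq' hq1 hq1'
  obtain ⟨a1, a2, a3, a4⟩ := hq
  obtain ⟨b1, b2, b3, b4⟩ := hq'
  obtain ⟨c1, c2, c3, c4⟩ := hq1
  obtain ⟨d1, d2, d3, d4⟩ := hq1'
  simp only [val, Adm]
  refine ⟨by linarith, ?_, ?_, ?_, ?_, ?_, ?_, ?_⟩
  · intro h0; have := 𝓓.inj _ _ _ _ a1 c1 (by linarith); linarith
  · intro h0; have := 𝓓.inj _ _ _ _ b1 d1 (by linarith); linarith
  · intro h0; have := 𝓓.inj _ _ _ _ a4 c4 (by linarith); linarith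
  · intro h0; have := 𝓓.inj _ _ _ _ a2 c2 (by linarith); linarith
  · intro h0; have := 𝓓.inj _ _ _ _ b2 d2 (by linarith); linarith
  · intro h0; have := 𝓓.inj _ _ _ _ a3 c3 (by linarith); linarith
  · intro h0; have := 𝓓.inj _ _ _ _ b3 d3 (by linarith); linarith

lemma h_sub (F P Q T : List Six) (h1 : Det P F) (h2 : Det Q F) (h3 : Det2 P Q T) :
    𝓓.h T + 𝓓.h F ≤ 𝓓.h P + 𝓓.h Q := by
  unfold h
  refine sub4 𝓓.wt (fun ω => (𝓓.wt_pos ω).le) _ _ _ _ ?_ ?_ ?_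
  · intro ω ω' hP
    rw [allZ_iff] at hP ⊢
    exact h1 _ (𝓓.adm ω ω') hP
  · intro ω ω' hP
    rw [allZ_iff] at hP ⊢
    exact h2 _ (𝓓.adm ω ω') hP
  · intro ω ω' hP hQ
    rw [allZ_iff] at hP hQ ⊢
    exact h3 _ (𝓓.adm ω ω') hP hQ

/-- exchange of the two copies -/
def swp : 𝓓.Om ≃ 𝓓.Om where
  toFun ω := ⟨(ω.1.2, ω.1.1), ω.2.symm⟩
  invFun ω := ⟨(ω.1.2, ω.1.1), ω.2.symm⟩
  left_inv _ := rfl
  right_inv _ := rfl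

lemma h_s1 (L : List Six) : 𝓓.h (L.map s1) = 𝓓.h L := by
  unfold h
  have hw : ∀ ω, 𝓓.wt (𝓓.swp ω) = 𝓓.wt ω := by
    intro ω
    unfold wt swp
    simp only [Equiv.coe_fn_mk]
    rw [ω.2]
  rw [← Hf_comp_equiv 𝓓.wt 𝓓.swp hw]
  congr 1
  funext ω
  rw [List.map_map]
  refine List.map_congr_left fun c _ => ?_
  obtain ⟨⟨⟨⟨x, y, z, w⟩, hq⟩, ⟨⟨u, v, z', w'⟩, hq'⟩⟩, hk⟩ := ω
  simp only [κ, Prod.mk.injEq] at hk
  obtain ⟨rfl, rfl, hs⟩ := hk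
  simp only [Function.comp, s1, dot, val, swp, Equiv.coe_fn_mk]
  ring

/-- type swap on quadruples -/
def ty (q : Four) : Four := (q.2.1, q.1, q.2.2.2, q.2.2.1)

lemma ty_mem {q : Four} (hq : q ∈ 𝓓.Q) : ty q ∈ 𝓓.Q := by
  obtain ⟨x, y, z, w⟩ := q
  rw [mem_Q] at hq
  unfold ty
  rw [mem_Q]
  exact ⟨𝓓.symm _ _ hq.1, 𝓓.symm _ _ hq.2.2.1, 𝓓.symm _ _ hq.2.1, 𝓓.symm _ _ hq.2.2.2⟩

lemma κ_ty (q : Four) : κ (ty q) = ((κ q).2.1, (κ q).1, (κ q).2.2) := by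
  simp [κ, ty, add_comm]

lemma ty_ty (q : Four) : ty (ty q) = q := rfl

lemma κ_ty_inj {q q' : Four} (h : κ q = κ q') : κ (ty q) = κ (ty q') := by
  rw [κ_ty, κ_ty, h]

lemma c_ty (q : Four) : 𝓓.c (κ (ty q)) = 𝓓.c (κ q) := by
  unfold c
  congr 1
  refine Finset.card_bij (fun q' _ => ty q') ?_ ?_ ?_
  · intro a ha
    rw [Finset.mem_filter] at ha ⊢
    refine ⟨𝓓.ty_mem ha.1, ?_⟩
    have := κ_ty_inj ha.2
    rwa [ty_ty] at this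
  · intro a _ b _ h
    have := congrArg ty h
    rwa [ty_ty, ty_ty] at this
  · intro b hb
    rw [Finset.mem_filter] at hb
    exact ⟨ty b, Finset.mem_filter.2 ⟨𝓓.ty_mem hb.1, κ_ty_inj hb.2⟩, rfl⟩

def tyE : 𝓓.Om ≃ 𝓓.Om where
  toFun ω := ⟨(⟨ty ω.1.1.1, 𝓓.ty_mem ω.1.1.2⟩, ⟨ty ω.1.2.1, 𝓓.ty_mem ω.1.2.2⟩), κ_ty_inj ω.2⟩
  invFun ω := ⟨(⟨ty ω.1.1.1, 𝓓.ty_mem ω.1.1.2⟩, ⟨ty ω.1.2.1, 𝓓.ty_mem ω.1.2.2⟩), κ_ty_inj ω.2⟩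
  left_inv _ := rfl
  right_inv _ := rfl

lemma h_s2 (L : List Six) : 𝓓.h (L.map s2) = 𝓓.h L := by
  unfold h
  have hw : ∀ ω, 𝓓.wt (𝓓.tyE ω) = 𝓓.wt ω := by
    intro ω
    show 1 / (𝓓.Q.card * 𝓓.c (κ (ty ω.1.1.1))) = 1 / (𝓓.Q.card * 𝓓.c (κ ω.1.1.1))
    rw [c_ty]
  rw [← Hf_comp_equiv 𝓓.wt 𝓓.tyE hw]
  congr 1
  funext ω
  rw [List.map_map]
  refine List.map_congr_left fun c _ => ?_
  obtain ⟨⟨⟨⟨x, y, z, w⟩, hq⟩, ⟨⟨u, v, z', w'⟩, hq'⟩⟩, hk⟩ := ω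
  simp only [κ, Prod.mk.injEq] at hk
  obtain ⟨rfl, rfl, hs⟩ := hk
  simp only [Function.comp, s2, dot, val, tyE, ty, Equiv.coe_fn_mk]
  ring

/-- value vector of a quadruple -/
def val4 (q : Four) : Six := (q.1, q.2.1, 0, 0, q.2.2.1, q.2.2.2)

noncomputable def u4 : 𝓓.Q → ℝ := fun _ => 1 / 𝓓.Q.card

lemma h_noUV (L : List Six) (hL : noUV L) :
    𝓓.h L = Hf 𝓓.u4 (fun q => L.map (fun c => dot c (val4 q.1))) := by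
  classical
  unfold h
  rw [← Hf_push 𝓓.wt 𝓓.u4 (fun ω => ω.1.1) (fun q => 𝓓.marg q)]
  congr 1
  funext ω
  induction L with
  | nil => rfl
  | cons c l ih =>
    simp only [List.map_cons, List.cons.injEq]
    refine ⟨?_, ih hL.2⟩
    obtain ⟨⟨h3, h4⟩, -⟩ := hL
    unfold dot val val4
    simp only [h3, h4]
    ring

lemma noUV_t1 (L : List Six) (hL : noUV L) : noUV (L.map t1) := by
  induction L with
  | nil => trivial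
  | cons c l ih => exact ⟨hL.1, ih hL.2⟩

lemma noUV_t2 (L : List Six) (hL : noUV L) : noUV (L.map t2) := by
  induction L with
  | nil => trivial
  | cons c l ih => exact ⟨hL.1, ih hL.2⟩

/-- `x ↔ z` -/
def xz : 𝓓.Q ≃ 𝓓.Q where
  toFun q := ⟨(q.1.2.2.1, q.1.2.1, q.1.1, q.1.2.2.2), by
    obtain ⟨⟨x, y, z, w⟩, hq⟩ := q
    rw [mem_Q] at hq ⊢
    exact ⟨hq.2.1, hq.1, hq.2.2.2, hq.2.2.1⟩⟩
  invFun q := ⟨(q.1.2.2.1, q.1.2.1, q.1.1, q.1.2.2.2), by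
    obtain ⟨⟨x, y, z, w⟩, hq⟩ := q
    rw [mem_Q] at hq ⊢
    exact ⟨hq.2.1, hq.1, hq.2.2.2, hq.2.2.1⟩⟩
  left_inv _ := rfl
  right_inv _ := rfl

/-- `y ↔ w` -/
def yw : 𝓓.Q ≃ 𝓓.Q where
  toFun q := ⟨(q.1.1, q.1.2.2.2, q.1.2.2.1, q.1.2.1), by
    obtain ⟨⟨x, y, z, w⟩, hq⟩ := q
    rw [mem_Q] at hq ⊢
    exact ⟨hq.2.2.1, hq.2.2.2, hq.1, hq.2.1⟩⟩
  invFun q := ⟨(q.1.1, q.1.2.2.2, q.1.2.2.1, q.1.2.1), by
    obtain ⟨⟨x, y, z, w⟩, hq⟩ := q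
    rw [mem_Q] at hq ⊢
    exact ⟨hq.2.2.1, hq.2.2.2, hq.1, hq.2.1⟩⟩
  left_inv _ := rfl
  right_inv _ := rfl

lemma h_t1 (L : List Six) (hL : noUV L) : 𝓓.h (L.map t1) = 𝓓.h L := by
  rw [h_noUV 𝓓 _ hL, h_noUV 𝓓 _ (noUV_t1 L hL)]
  rw [← Hf_comp_equiv 𝓓.u4 𝓓.xz (fun _ => rfl)]
  congr 1
  funext q
  rw [List.map_map]
  refine List.map_congr_left fun c _ => ?_
  simp only [Function.comp, t1, dot, val4, xz, Equiv.coe_fn_mk]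
  ring

lemma h_t2 (L : List Six) (hL : noUV L) : 𝓓.h (L.map t2) = 𝓓.h L := by
  rw [h_noUV 𝓓 _ hL, h_noUV 𝓓 _ (noUV_t2 L hL)]
  rw [← Hf_comp_equiv 𝓓.u4 𝓓.yw (fun _ => rfl)]
  congr 1
  funext q
  rw [List.map_map]
  refine List.map_congr_left fun c _ => ?_
  simp only [Function.comp, t2, dot, val4, yw, Equiv.coe_fn_mk]
  ring

lemma h_nil : 𝓓.h [] = 0 := by
  unfold h Hf
  refine Finset.sum_eq_zero fun ω _ => ?_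
  have : mg 𝓓.wt (fun ω => ([] : List Six).map (fun c => dot c (𝓓.val ω))) ω = 1 := by
    unfold mg
    simp only [List.map_nil, if_true]
    exact 𝓓.wt_sum
  rw [this]
  simp

/-- the frame of the data -/
noncomputable def frame : Frame where
  h := 𝓓.h
  sub := 𝓓.h_sub
  hs1 := 𝓓.h_s1
  hs2 := 𝓓.h_s2
  ht1 := 𝓓.h_t1
  ht2 := 𝓓.h_t2
  h0 := 𝓓.h_nil

/-- the full list -/
def full : List Six := [(1,0,0,0,0,0), (0,1,0,0,0,0), (0,0,1,0,0,0), (0,0,0,1,0,0),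
  (0,0,0,0,1,0), (0,0,0,0,0,1)]

lemma mg_inj {Ω α : Type*} [Fintype Ω] [DecidableEq α] (w : Ω → ℝ) (f : Ω → α)
    (hf : Function.Injective f) (ω : Ω) : mg w f ω = w ω := by
  classical
  unfold mg
  have : ∀ ω', (if f ω' = f ω then w ω' else 0) = if ω' = ω then w ω' else 0 := by
    intro ω'
    by_cases h : ω' = ω
    · simp [h]
    · rw [if_neg h, if_neg (fun h2 => h (hf h2))]
  simp only [this]
  simp

theorem total_ge : 2 * Real.log 𝓓.Q.card -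
    Real.log ((𝓓.A.card : ℝ) * (𝓓.A.card * (𝓓.A + 𝓓.A).card)) ≤ 𝓓.h full := by
  classical
  have hQ := 𝓓.Qpos
  have hinj : Function.Injective (fun ω : 𝓓.Om => full.map (fun c => dot c (𝓓.val ω))) := by
    intro ω ω' hh
    obtain ⟨⟨⟨⟨x, y, z, w⟩, hq⟩, ⟨⟨u, v, z', w'⟩, hq'⟩⟩, hk⟩ := ω
    obtain ⟨⟨⟨⟨x1, y1, z1, w1⟩, hq1⟩, ⟨⟨u1, v1, z1', w1'⟩, hq1'⟩⟩, hk1⟩ := ω'
    simp only [κ, Prod.mk.injEq] at hk hk1
    obtain ⟨rfl, rfl, hs⟩ := hk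
    obtain ⟨rfl, rfl, hs1⟩ := hk1
    simp [full, dot, val] at hh
    obtain ⟨rfl, rfl, rfl, rfl, rfl, rfl⟩ := hh
    rfl
  have e1 : 𝓓.h full = ∑ ω : 𝓓.Om, 𝓓.wt ω * (Real.log 𝓓.Q.card + Real.log (𝓓.c (κ ω.1.1.1))) := by
    unfold h Hf
    refine Finset.sum_congr rfl fun ω _ => ?_
    rw [mg_inj _ _ hinj]
    congr 1
    unfold wt
    have := 𝓓.c_pos _ ω.1.1.2
    rw [one_div, Real.log_inv, neg_neg, Real.log_mul hQ.ne' this.ne']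
  have e2 : ∑ ω : 𝓓.Om, 𝓓.wt ω * (Real.log 𝓓.Q.card + Real.log (𝓓.c (κ ω.1.1.1))) =
      ∑ q : 𝓓.Q, (1 / 𝓓.Q.card : ℝ) * (Real.log 𝓓.Q.card + Real.log (𝓓.c (κ q.1))) := by
    calc ∑ ω : 𝓓.Om, 𝓓.wt ω * (Real.log 𝓓.Q.card + Real.log (𝓓.c (κ ω.1.1.1)))
        = ∑ ω : 𝓓.Om, ∑ q : 𝓓.Q, (if ω.1.1 = q then
            𝓓.wt ω * (Real.log 𝓓.Q.card + Real.log (𝓓.c (κ q.1))) else 0) := by
          refine Finset.sum_congr rfl fun ω _ => ?_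
          rw [Finset.sum_ite_eq]
          simp
      _ = ∑ q : 𝓓.Q, ∑ ω : 𝓓.Om, (if ω.1.1 = q then
            𝓓.wt ω * (Real.log 𝓓.Q.card + Real.log (𝓓.c (κ q.1))) else 0) := Finset.sum_comm
      _ = _ := by
          refine Finset.sum_congr rfl fun q _ => ?_
          rw [𝓓.marg q, Finset.sum_mul]
          refine Finset.sum_congr rfl fun ω _ => ?_
          split_ifs <;> simp
  have hu1 : ∑ q : 𝓓.Q, 𝓓.u4 q = 1 := by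
    unfold u4
    rw [Finset.sum_const, nsmul_eq_mul, Finset.card_univ, Fintype.card_coe]
    field_simp
  have e3 : Hf 𝓓.u4 (fun q : 𝓓.Q => κ q.1) =
      ∑ q : 𝓓.Q, (1 / 𝓓.Q.card : ℝ) * (Real.log 𝓓.Q.card - Real.log (𝓓.c (κ q.1))) := by
    unfold Hf
    refine Finset.sum_congr rfl fun q _ => ?_
    have hm : mg 𝓓.u4 (fun q : 𝓓.Q => κ q.1) q = 𝓓.c (κ q.1) / 𝓓.Q.card := by
      unfold mg u4
      rw [← Finset.sum_filter, Finset.sum_const, nsmul_eq_mul]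
      have e2 : ((Finset.univ.filter fun q' : 𝓓.Q => κ q'.1 = κ q.1).card : ℝ) =
          𝓓.c (κ q.1) := by
        unfold c
        congr 1
        refine Finset.card_bij (fun q' _ => q'.1) ?_ ?_ ?_
        · intro a ha
          simp only [Finset.mem_filter, Finset.mem_univ, true_and] at ha
          exact Finset.mem_filter.2 ⟨a.2, ha⟩
        · intro a _ b _ h
          exact Subtype.ext h
        · intro b hb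
          rw [Finset.mem_filter] at hb
          exact ⟨⟨b, hb.1⟩, by simp [hb.2], rfl⟩
      rw [e2]
      ring
    rw [hm]
    have := 𝓓.c_pos _ q.2
    rw [Real.log_div this.ne' hQ.ne']
    unfold u4
    ring
  have e4 : Hf 𝓓.u4 (fun q : 𝓓.Q => κ q.1) ≤
      Real.log (𝓓.A ×ˢ 𝓓.A ×ˢ (𝓓.A + 𝓓.A)).card := by
    refine Hf_le_log_card 𝓓.u4 (fun _ => by unfold u4; positivity) hu1 _ _ ?_
    rintro ⟨⟨x, y, z, w⟩, hq⟩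
    rw [mem_Q] at hq
    simp only [κ, Finset.mem_product]
    exact ⟨(𝓓.mem_A_of_G hq.2.1).1, (𝓓.mem_A_of_G hq.2.2.1).2,
      Finset.add_mem_add (𝓓.mem_A_of_G hq.1).1 (𝓓.mem_A_of_G hq.1).2⟩
  have e5 : 𝓓.h full + Hf 𝓓.u4 (fun q : 𝓓.Q => κ q.1) = 2 * Real.log 𝓓.Q.card := by
    rw [e1, e2, e3, ← Finset.sum_add_distrib]
    have : ∀ q : 𝓓.Q, (1 / 𝓓.Q.card : ℝ) * (Real.log 𝓓.Q.card + Real.log (𝓓.c (κ q.1))) +
        (1 / 𝓓.Q.card : ℝ) * (Real.log 𝓓.Q.card - Real.log (𝓓.c (κ q.1))) =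
        (1 / 𝓓.Q.card : ℝ) * (2 * Real.log 𝓓.Q.card) := by intro q; ring
    simp only [this]
    rw [Finset.sum_const, nsmul_eq_mul, Finset.card_univ, Fintype.card_coe]
    field_simp
  rw [Finset.card_product, Finset.card_product] at e4
  push_cast at e4
  linarith

/-- upper bounds -/
lemma h_elem (c : Six) (hc : ∀ ω, dot c (𝓓.val ω) ∈ 𝓓.A) : 𝓓.h [c] ≤ Real.log 𝓓.A.card := by
  unfold h
  refine (Hf_le_log_card 𝓓.wt (fun ω => (𝓓.wt_pos ω).le) 𝓓.wt_sum _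
    (𝓓.A.image fun a => [a]) ?_).trans ?_
  · intro ω
    exact Finset.mem_image.2 ⟨_, hc ω, rfl⟩
  · have h1 : (𝓓.A.image fun a => [a]).Nonempty := by
      obtain ⟨⟨a, b⟩, h⟩ := 𝓓.ne
      exact ⟨[a], Finset.mem_image_of_mem _ (𝓓.mem_A_of_G h).1⟩
    refine Real.log_le_log (by exact_mod_cast Finset.card_pos.mpr h1) ?_
    exact_mod_cast Finset.card_image_le

lemma h_sum (c : Six) (hc : ∀ ω, dot c (𝓓.val ω) ∈ 𝓓.A + 𝓓.A) :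
    𝓓.h [c] ≤ Real.log (𝓓.A + 𝓓.A).card := by
  unfold h
  refine (Hf_le_log_card 𝓓.wt (fun ω => (𝓓.wt_pos ω).le) 𝓓.wt_sum _
    ((𝓓.A + 𝓓.A).image fun a => [a]) ?_).trans ?_
  · intro ω
    exact Finset.mem_image.2 ⟨_, hc ω, rfl⟩
  · have h1 : ((𝓓.A + 𝓓.A).image fun a => [a]).Nonempty := by
      obtain ⟨⟨a, b⟩, h⟩ := 𝓓.ne
      exact ⟨[a + b], Finset.mem_image_of_mem _
        (Finset.add_mem_add (𝓓.mem_A_of_G h).1 (𝓓.mem_A_of_G h).2)⟩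
    refine Real.log_le_log (by exact_mod_cast Finset.card_pos.mpr h1) ?_
    exact_mod_cast Finset.card_image_le

end Data

end Pool.Agent.H149R2.SD
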