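import Mathlib
import Pool.Agent.H149R2.SD.Law
import Pool.Agent.H149R2.SD.Final

/-!
For every finite set `A` of integers: `|A - A| ≤ |A + A| ^ (11071 / 8304)`, and `11071 / 8304 < 4 / 3`.
-/

set_option autoImplicit false
open Finset
open scoped Pointwise

namespace Pool.Agent.H149R2.SD

namespace Data
variable (𝓓 : Data)

theorem total_le : 423 * 𝓓.h full ≤
    690 * Real.log 𝓓.A.card + 808 * Real.log (𝓓.A + 𝓓.A).card := by
  have hval : ∀ ω : 𝓓.Om, (𝓓.val ω).1 ∈ 𝓓.A ∧ (𝓓.val ω).2.1 ∈ 𝓓.A ∧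
      (𝓓.val ω).2.2.2.2.1 ∈ 𝓓.A := by
    intro ω
    obtain ⟨⟨⟨⟨x, y, z, w⟩, hq⟩, ⟨⟨u, v, z', w'⟩, hq'⟩⟩, hk⟩ := ω
    rw [mem_Q] at hq
    exact ⟨(𝓓.mem_A_of_G hq.1).1, (𝓓.mem_A_of_G hq.1).2, (𝓓.mem_A_of_G hq.2.1).1⟩
  have b1 : 𝓓.frame.h [(1,0,0,0,0,0)] ≤ Real.log 𝓓.A.card := by
    refine 𝓓.h_elem _ fun ω => ?_
    have : dot (1,0,0,0,0,0) (𝓓.val ω) = (𝓓.val ω).1 := by simp [dot]
    rw [this]
    exact (hval ω).1
  have b2 : 𝓓.frame.h [(1,1,0,0,0,0)] ≤ Real.log (𝓓.A + 𝓓.A).card := by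
    refine 𝓓.h_sum _ fun ω => ?_
    have : dot (1,1,0,0,0,0) (𝓓.val ω) = (𝓓.val ω).1 + (𝓓.val ω).2.1 := by simp [dot]
    rw [this]
    exact Finset.add_mem_add (hval ω).1 (hval ω).2.1
  have b3 : 𝓓.frame.h [(1,0,0,0,1,0)] ≤ Real.log (𝓓.A + 𝓓.A).card := by
    refine 𝓓.h_sum _ fun ω => ?_
    have : dot (1,0,0,0,1,0) (𝓓.val ω) = (𝓓.val ω).1 + (𝓓.val ω).2.2.2.2.1 := by simp [dot]
    rw [this]
    exact Finset.add_mem_add (hval ω).1 (hval ω).2.2
  have hc := cert 𝓓.frame _ _ b1 b2 b3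
  have e : 𝓓.frame.h [(1,0,0,0,0,0), (0,0,-1,1,0,0), (0,0,0,0,1,-1)] = 𝓓.frame.h full := by
    refine 𝓓.frame.congr _ _ ?_ ?_
    · refine det_intro fun x y u v z w r g1 g2 g3 g4 g5 g6 g7 h => ?_
      simp only [full, allZ, dot] at h ⊢
      obtain ⟨h1, h2, h3, -⟩ := h
      have k1 := g2 (by clear g1 g2 g3 g4 g5 g6 g7; omega)
      have k2 := g3 (by clear g1 g2 g3 g4 g5 g6 g7; omega)
      clear g1 g2 g3 g4 g5 g6 g7
      refine ⟨by omega, by omega, by omega, by omega, by omega, by omega, trivial⟩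
    · refine det_intro fun x y u v z w r g1 g2 g3 g4 g5 g6 g7 h => ?_
      simp only [full, allZ, dot] at h ⊢
      obtain ⟨h1, h2, h3, h4, h5, h6, -⟩ := h
      clear g1 g2 g3 g4 g5 g6 g7
      refine ⟨by omega, by omega, by omega, trivial⟩
  rw [e] at hc
  exact hc

theorem graph_bound : 3384 * Real.log 𝓓.G.card ≤
    4920 * Real.log 𝓓.A.card + 1231 * Real.log (𝓓.A + 𝓓.A).card := by
  have h1 := 𝓓.total_le
  have h2 := 𝓓.total_ge
  have hA : (0 : ℝ) < 𝓓.A.card := by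
    obtain ⟨⟨a, b⟩, h⟩ := 𝓓.ne
    exact_mod_cast Finset.card_pos.mpr ⟨a, (𝓓.mem_A_of_G h).1⟩
  have hS : (0 : ℝ) < (𝓓.A + 𝓓.A).card := by
    obtain ⟨⟨a, b⟩, h⟩ := 𝓓.ne
    exact_mod_cast Finset.card_pos.mpr
      ⟨a + a, Finset.add_mem_add (𝓓.mem_A_of_G h).1 (𝓓.mem_A_of_G h).1⟩
  have hG : (0 : ℝ) < 𝓓.G.card := by exact_mod_cast Finset.card_pos.mpr 𝓓.ne
  have h3 : 4 * Real.log 𝓓.G.card ≤ Real.log 𝓓.Q.card + 4 * Real.log 𝓓.A.card := by
    have := Real.log_le_log (by positivity) 𝓓.card_Q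
    rw [Real.log_mul 𝓓.Qpos.ne' (by positivity), Real.log_pow, Real.log_pow] at this
    push_cast at this
    exact this
  rw [Real.log_mul hA.ne' (by positivity), Real.log_mul hA.ne' hS.ne'] at h2
  linarith

end Data

/-- representatives of the differences, symmetric -/
theorem exists_data (A : Finset ℤ) (hA : A.Nonempty) :
    ∃ 𝓓 : Data, 𝓓.A = A ∧ 𝓓.G.card = (A - A).card := by
  classical
  have hr : ∀ d : ℤ, ∃ p : ℤ × ℤ, d ∈ A - A → p.1 ∈ A ∧ p.2 ∈ A ∧ p.1 - p.2 = d := by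
    intro d
    by_cases hd : d ∈ A - A
    · obtain ⟨a, ha, b, hb, hab⟩ := Finset.mem_sub.1 hd
      exact ⟨(a, b), fun _ => ⟨ha, hb, hab⟩⟩
    · exact ⟨(0, 0), fun h => absurd h hd⟩
  choose r hr using hr
  have hneg : ∀ d, d ∈ A - A → -d ∈ A - A := by
    intro d hd
    obtain ⟨a, ha, b, hb, hab⟩ := Finset.mem_sub.1 hd
    exact Finset.mem_sub.2 ⟨b, hb, a, ha, by rw [← hab]; ring⟩
  set q : ℤ → ℤ × ℤ := fun d => if 0 ≤ d then r d else ((r (-d)).2, (r (-d)).1) with hq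
  have hq1 : ∀ d ∈ A - A, (q d).1 ∈ A ∧ (q d).2 ∈ A ∧ (q d).1 - (q d).2 = d := by
    intro d hd
    simp only [hq]
    split_ifs with h
    · exact hr d hd
    · obtain ⟨h1, h2, h3⟩ := hr (-d) (hneg d hd)
      exact ⟨h2, h1, by linarith⟩
  have hq2 : ∀ d ∈ A - A, q (-d) = ((q d).2, (q d).1) := by
    intro d hd
    rcases lt_trichotomy d 0 with h | h | h
    · simp only [hq]
      rw [if_pos (by linarith), if_neg (by linarith)]
    · subst h
      obtain ⟨h1, h2, h3⟩ := hq1 0 hd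
      rw [neg_zero]
      exact Prod.ext (by linarith) (by linarith)
    · simp only [hq]
      rw [if_neg (by linarith), if_pos (by linarith), neg_neg]
  refine ⟨⟨A, (A - A).image q, ?_, ?_, ?_, ?_⟩, rfl, ?_⟩
  · intro p hp
    obtain ⟨d, hd, rfl⟩ := Finset.mem_image.1 hp
    exact Finset.mem_product.2 ⟨(hq1 d hd).1, (hq1 d hd).2.1⟩
  · intro a b hp
    obtain ⟨d, hd, hd2⟩ := Finset.mem_image.1 hp
    refine Finset.mem_image.2 ⟨-d, hneg d hd, ?_⟩
    rw [hq2 d hd, hd2]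
  · intro a b a' b' hp hp' hab
    obtain ⟨d, hd, hd2⟩ := Finset.mem_image.1 hp
    obtain ⟨d', hd', hd2'⟩ := Finset.mem_image.1 hp'
    have e1 := (hq1 d hd).2.2
    have e2 := (hq1 d' hd').2.2
    rw [hd2] at e1
    rw [hd2'] at e2
    have : d = d' := by rw [← e1, ← e2]; exact hab
    subst this
    have := hd2.symm.trans hd2'
    exact (Prod.mk.inj this).1
  · obtain ⟨a, ha⟩ := hA
    exact ⟨q (a - a), Finset.mem_image_of_mem _ (Finset.sub_mem_sub ha ha)⟩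
  · refine Finset.card_image_of_injOn ?_
    intro d hd d' hd' h
    have e1 := (hq1 d hd).2.2
    have e2 := (hq1 d' hd').2.2
    rw [← e1, ← e2, h]

/-- **The sum-difference inequality**: `|A - A| ^ 8304 ≤ |A + A| ^ 11071`, in logarithmic form. -/
theorem log_bound (A : Finset ℤ) (hA : A.Nonempty) :
    8304 * Real.log (A - A).card ≤ 11071 * Real.log (A + A).card := by
  obtain ⟨𝓓, h1, h2⟩ := exists_data A hA
  have h3 := 𝓓.graph_bound
  rw [h1, h2] at h3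
  have h4 : ((A - A).card : ℝ) * A.card ≤ (A + A).card * (A + A).card := by
    exact_mod_cast Finset.ruzsa_triangle_inequality_sub_add_add A A A
  have p1 : (0 : ℝ) < A.card := by exact_mod_cast Finset.card_pos.mpr hA
  have p2 : (0 : ℝ) < (A - A).card := by exact_mod_cast Finset.card_pos.mpr (hA.sub hA)
  have p3 : (0 : ℝ) < (A + A).card := by exact_mod_cast Finset.card_pos.mpr (hA.add hA)
  have h5 := Real.log_le_log (by positivity) h4
  rw [Real.log_mul p2.ne' p1.ne', Real.log_mul p3.ne' p3.ne'] at h5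
  linarith

theorem ratio_le (A : Finset ℤ) :
    Real.log (A - A).card / Real.log (A + A).card ≤ 11071 / 8304 := by
  rcases A.eq_empty_or_nonempty with rfl | hA
  · simp; norm_num
  · have h := log_bound A hA
    have p3 : (1 : ℝ) ≤ (A + A).card := by
      exact_mod_cast Finset.card_pos.mpr (hA.add hA)
    rcases (Real.log_nonneg p3).eq_or_lt with h0 | hpos
    · rw [← h0, div_zero]; norm_num
    · rw [div_le_div_iff₀ hpos (by norm_num)]
      linarith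

end Pool.Agent.H149R2.SD
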